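import Pool.Agent.H14.P4.Stm
import Pool.Agent.H89.TT.NoS

/-!
# Closed charts are affine: statements

`AffS`: the abstract theorem. Samples with a straight line `σ ↦ (σ, e + v σ)`, nested contexts `κ k`
which know the line up to `k z` digits; the velocity `v` is in no slab of width `2 ^ (-(k + A) z)`
whose data are functions of `κ k` (`k ≤ k₀`). A polynomial `G`, a function of `κ 0`, all of whose
monomials have degree `≥ r`, such that the coefficients of order `≥ r` of `G` along the line are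
small, is small.

`FraC D n 1 M z C ω`: the sample has an affine frame.
-/

set_option autoImplicit false

namespace Pool.AF37

open Finset Real MvPolynomial
open Pool.Agent.H49.Ent Pool.Agent.H32.Dense Pool.STK Pool.STAT Pool.MIC.Frm Pool.MIC7 Pool.FRM
open Pool.P4
open Pool.BFL (Pb Pl)

/-- The line with the coordinates `e m + v m σ`; the time `σ` is the coordinate `0`. -/
noncomputable def lnp {n : ℕ} (e v : Fin n → ℝ) : Fin (n + 1) → Polynomial ℝ :=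
  Fin.cons Polynomial.X fun m => Polynomial.C (e m) + Polynomial.C (v m) * Polynomial.X

/-- The sum of the absolute values of the coefficients. -/
noncomputable def l1 {n : ℕ} (G : Pl n) : ℝ := ∑ α ∈ G.support, |G.coeff α|

/-- The sum of the absolute values of the coefficients. -/
noncomputable def l1p (p : Polynomial ℝ) : ℝ := ∑ a ∈ p.support, |p.coeff a|

/-- **Taylor**, to the first order, for polynomials along a curve (`L`, `H` are polynomials in the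
time). -/
def Tay : Prop :=
  ∀ n K : ℕ, ∃ c : ℝ, 1 ≤ c ∧ ∀ (G : Pl n) (L H : Fin n → Polynomial ℝ) (R h : ℝ),
    G.totalDegree ≤ K → 1 ≤ R → 0 ≤ h → h ≤ 1 → (∀ m, l1p (L m) ≤ R) → (∀ m, l1p (H m) ≤ h) →
    l1p (aeval L G) ≤ c * R ^ K * l1 G ∧
    l1p (aeval (fun m => L m + H m) G - aeval L G) ≤ c * R ^ K * h * l1 G ∧
    l1p (aeval (fun m => L m + H m) G - aeval L G - ∑ m, aeval L (pderiv m G) * H m) ≤
      c * R ^ K * h ^ 2 * l1 G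

/-- **The derivative along a curve**, and the sizes of the derivatives. -/
def Drv : Prop :=
  ∀ (n : ℕ) (G : Pl n),
    (∀ L : Fin n → Polynomial ℝ, Polynomial.derivative (aeval L G) =
      ∑ m, aeval L (pderiv m G) * Polynomial.derivative (L m)) ∧
    (∀ K m, G.totalDegree ≤ K → l1 (pderiv m G) ≤ K * l1 G ∧
      (pderiv m G).totalDegree ≤ K - 1) ∧
    (∀ r m, (∀ α ∈ G.support, r ≤ α.degree) → ∀ α ∈ (pderiv m G).support, r - 1 ≤ α.degree) ∧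
    l1 G ≤ |G.coeff 0| + ∑ m, l1 (pderiv m G)

/-- **The abstract theorem.** -/
def AffS : Prop :=
  ∀ n K A C S lam : ℕ, ∃ k₀ Λ N z₀ : ℕ, ∀ z r : ℕ, z₀ ≤ z →
    ∀ (Ω : Type) [Fintype Ω] (q : Ω → ℝ) (Γ : ℕ → Type) (κ : ∀ k, Ω → Γ k)
      (e v : Ω → Fin n → ℝ) (G : Ω → Pl (n + 1)) (E : Ω → Prop) (ϖ : ℝ), IsLaw q → 0 ≤ ϖ →
      (∀ ω, E ω → 0 < q ω) →
      (∀ k < k₀, ∀ ω ω', E ω → E ω' → κ (k + 1) ω = κ (k + 1) ω' → κ k ω = κ k ω') →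
      (∀ ω, E ω → ∀ m, |e ω m| ≤ 2 ^ (C * z) ∧ |v ω m| ≤ 2 ^ (C * z)) →
      (∀ k ≤ k₀, ∀ ω ω', E ω → E ω' → κ k ω = κ k ω' → ∀ m,
        |e ω m - e ω' m| ≤ 2 ^ (C * z) / 2 ^ (k * z) ∧
          |v ω m - v ω' m| ≤ 2 ^ (C * z) / 2 ^ (k * z)) →
      -- the velocity is in no slab
      (∀ k ≤ k₀, ∀ (m₀ : Fin n) (ka : Γ k → Fin n → ℝ) (al : Γ k → ℝ), (∀ c, ka c m₀ = 1) →
        (∀ c m, |ka c m| ≤ 1) → ∀ E' : Ω → Prop, (∀ ω, E' ω → E ω) →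
        (∀ ω, E' ω → |∑ m, ka (κ k ω) m * v ω m - al (κ k ω)| ≤ 1 / 2 ^ ((k + A) * z)) →
        Pb q E' ≤ ϖ) →
      -- the polynomial
      (∀ ω ω', E ω → E ω' → κ 0 ω = κ 0 ω' → G ω = G ω') →
      (∀ ω, E ω → (G ω).totalDegree ≤ K ∧ (∀ α ∈ (G ω).support, r ≤ α.degree) ∧
        l1 (G ω) ≤ 2 ^ (S * z) ∧
        ∀ a, r ≤ a → |(aeval (lnp (e ω) (v ω)) (G ω)).coeff a| ≤ 1 / 2 ^ (Λ * z)) →
      Pb q (fun ω => E ω ∧ ¬ l1 (G ω) ≤ 1 / 2 ^ (lam * z)) ≤ N * ϖ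

/-- The closed label of the coordinate `l` at `(i, j)` is near to an affine function on the natural
box of the closed labels. -/
def AfL (D : NDat2) (z i j l : ℕ) (B : ℝ) (ω : D.Ω) : Prop :=
  ∃ L : PN, L.vars ⊆ range l ∧ L.totalDegree ≤ 1 ∧ ∀ b : ℕ → ℝ,
    (∀ m < l, |nat (D.g i j) (D.Φ i j ω) b m| ≤ 1) →
    |eval b (D.Φ i j ω l) - eval b L| ≤ exp (B * z) / 2 ^ D.g i j l

/-- **One more affine coordinate**, deterministic. -/
def FraOne : Prop :=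
  ∀ (n K : ℕ) (C B : ℝ), 0 ≤ C → 0 ≤ B → ∃ C' : ℝ, 0 ≤ C' ∧ ∀ (D : NDat2) (z M l : ℕ) (ω : D.Ω),
    1 ≤ z → 1 ≤ l → l ≤ n → (∀ i j, TriN (D.Φ i j ω)) → (∀ i j m, (D.Φ i j ω m).totalDegree ≤ K) →
    FraC D n K M z C ω → FraC D (l - 1) 1 M z C ω →
    (∀ i < M, ∀ j < M, AfL D z i j l B ω) → FraC D l 1 M z C' ω

/-- The base case: the time. -/
def FraZero : Prop :=
  ∀ (n K : ℕ) (C : ℝ) (D : NDat2) (z M : ℕ) (ω : D.Ω), (∀ i j, TriN (D.Φ i j ω)) →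
    FraC D n K M z C ω → FraC D 0 1 M z C ω

/-- **Closed affine frames are charts**: `P` is affine, a function of the closed context at `(i, j)`,
near to the closed labels at `(i, j)`. -/
def ChtAff : Prop :=
  ∀ (n K : ℕ) (C₁ C : ℝ), 1 ≤ n → 0 ≤ C → ∃ (t z₀ : ℕ), 1 ≤ t ∧
    ∀ (D : NDat2) (J a₀ w₀ z M n' i j v U : ℕ) (lam gam : ℕ → ℝ) (κ : ℝ) (q : D.Ω → ℝ)
      (P : D.Γ → ℕ → PN) (E : D.Ω → Prop), z₀ ≤ z →
      D.Ok2 n K J a₀ w₀ z M lam gam κ C₁ q → D.Strt → D.Slp n J z M q → n' ≤ n → i ≤ M → j < v →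
      v ≤ M → U ≤ M → (∀ c, TriN (P c)) → (∀ c m, (P c m).totalDegree ≤ 1) →
      (∀ ω, E ω → 0 < q ω ∧ PthC D n w₀ z M 1 ω ∧ ∀ m ≤ n',
        nrm (D.g i j) (1 / 2) (chr (P (D.c i j ω)) (D.Φ i j ω m - P (D.c i j ω) m)) ≤
          exp (C * z) / 2 ^ D.g i j m) →
      ∃ A B : D.Λ × ℕ → ℕ → ℝ,
        D.Cht n' 1 J w₀ z i j v t U q E (fun c => P c.1) A B ∧
        -- the slopes are the slopes of the heights, per window
        ∀ ω, E ω → ∀ m, 1 ≤ m → m ≤ n' → B (D.wn J (w₀ + v * z) ω) m =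
          nat (D.g i j) (P (D.c i j ω)) (pp D (D.ln ω) (1 / 2 ^ (w₀ + v * z))) m -
            nat (D.g i j) (P (D.c i j ω)) (pp D (D.ln ω) 0) m

/-- **Affine frames**: the samples of a good event have an affine frame at all places `< M'`. -/
def AffEv : Prop :=
  ∀ (n K : ℕ) (lam gam : ℕ → ℝ) (C₁ Cs : ℝ), 1 ≤ n → 1 ≤ C₁ → (∀ l, 1 ≤ l → l ≤ n → lam l = 1) →
    ∃ (K' : ℕ) (C : ℝ), K ≤ K' ∧ 1 ≤ K' ∧ 0 ≤ C ∧
    ∀ (M' : ℕ) (e : ℝ), 2 ≤ M' → 0 < e → ∃ (M : ℕ) (κ : ℝ) (z₀ : ℕ), M' ≤ M ∧ 0 < κ ∧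
    ∀ (J a₀ w₀ z : ℕ) (D : NDat2) (q : D.Ω → ℝ), z₀ ≤ z →
      D.Ok2 n K J a₀ w₀ z M lam gam κ C₁ q → D.TmU J w₀ z κ q → D.Strt → D.Slp n J z M q →
      D.NoSl n J w₀ z M 1 Cs κ q →
      ∃ E : D.Ω → Prop, Pb q (fun ω => ¬ E ω) ≤ e ∧
        ∀ ω, E ω → 0 < q ω ∧ GoodS D n K' w₀ z M' C ω ∧ FraC D n 1 M' z C ω

end Pool.AF37
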