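import Pool.Agent.H37.AF.Def

/-!
# Straight lines over affine frames
-/

set_option autoImplicit false

namespace Pool.AF37

open Finset Real MvPolynomial
open Pool.Agent.H49.Ent Pool.Agent.H32.Dense Pool.STK Pool.STAT Pool.MIC.Frm Pool.MIC7 Pool.FRM
open Pool.P4
open Pool.BFL (Pb Pl)

/-- An affine polynomial. -/
theorem aff_eq {F : PN} {n : ℕ} (hv : F.vars ⊆ range n) (hd : F.totalDegree ≤ 1) (b : ℕ → ℝ) :
    eval b F = coeff 0 F + ∑ k ∈ range n, coeff (Finsupp.single k 1) F * b k := by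
  classical
  have key : F = C (coeff 0 F) + ∑ k ∈ range n, C (coeff (Finsupp.single k 1) F) * X k := by
    ext β
    rw [coeff_add, coeff_C, coeff_sum]
    simp only [coeff_C_mul, coeff_X']
    by_cases h0 : β = 0
    · subst h0
      rw [if_pos rfl, Finset.sum_eq_zero, add_zero]
      intro k _
      rw [if_neg, mul_zero]
      intro h
      have := DFunLike.congr_fun h k
      simp at this
    · rw [if_neg (fun h => h0 h.symm), zero_add]
      by_cases h1 : β ∈ F.support
      · obtain ⟨k, hk⟩ : ∃ k, k ∈ β.support := by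
          by_contra h
          push Not at h
          exact h0 (Finsupp.support_eq_empty.1 (Finset.eq_empty_of_forall_notMem h))
        have hdeg : β.degree ≤ 1 := by
          have := (le_totalDegree h1).trans hd
          exact this
        have hβ : β = Finsupp.single k 1 := by
          have hk0 : β k ≠ 0 := Finsupp.mem_support_iff.1 hk
          have hle : Finsupp.single k 1 ≤ β := by
            rw [Finsupp.single_le_iff]
            omega
          obtain ⟨γ, hγ⟩ := exists_add_of_le hle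
          have h2 : β.degree = 1 + γ.degree := by
            rw [hγ, map_add, Finsupp.degree_single]
          have h3 : γ.degree = 0 := by omega
          have h4 : γ = 0 := (Finsupp.degree_eq_zero_iff _).1 h3
          rw [hγ, h4, add_zero]
        have hkn : k ∈ range n := hv ((mem_vars k).2 ⟨β, h1, hk⟩)
        rw [Finset.sum_eq_single_of_mem k hkn, if_pos hβ.symm, mul_one, hβ]
        intro l _ hl
        rw [if_neg, mul_zero]
        intro h
        rw [hβ] at h
        exact hl (Finsupp.single_left_injective one_ne_zero h)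
      · rw [notMem_support_iff.1 h1, Finset.sum_eq_zero]
        intro k _
        by_cases h2 : Finsupp.single k 1 = β
        · rw [if_pos h2, mul_one, h2]
          exact notMem_support_iff.1 h1
        · rw [if_neg h2, mul_zero]
  conv_lhs => rw [key]
  rw [map_add, eval_C, map_sum]
  simp only [map_mul, eval_C, eval_X]

section

variable {P P' Φ : ℕ → PN} {g g' : ℕ → ℕ}

/-- **Two frames.** -/
theorem nat_chg (hP' : TriN P') (b : ℕ → ℝ) (m : ℕ) :
    nat g P b m = 2 ^ g m * (zs P' b m + eval (zs P' b) (chr P' (P' m - P m))) := by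
  rw [chr_eval hP', map_sub]
  unfold nat zs
  ring

theorem zs_chg (hP' : TriN P') (b : ℕ → ℝ) (m : ℕ) :
    zs P b m = zs P' b m + eval (zs P' b) (chr P' (P' m - P m)) := by
  rw [chr_eval hP', map_sub]
  unfold zs
  ring

/-- **Heights over a near frame.** -/
theorem nat_near (p N : ℕ) {B S : ℝ} (hB : 1 ≤ B) (hS : 1 ≤ S) (hΦ : TriN Φ) (hP : TriN P)
    (hN : ∀ m ≤ p, (chr P (Φ m - P m)).totalDegree ≤ N)
    (hn : ∀ m ≤ p, nrm g (1 / 2) (chr P (Φ m - P m)) ≤ B / 2 ^ g m) {b : ℕ → ℝ}
    (hb : ∀ m ≤ p, |nat g Φ b m| ≤ S) :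
    ∀ m ≤ p, |nat g P b m| ≤ (2 * B * S) ^ ((N + 1) ^ m) := by
  have hBS : 1 ≤ 2 * B * S := by nlinarith
  intro m
  induction m using Nat.strong_induction_on with
  | _ m ih =>
    intro hm
    have e1 : nat g P b m = nat g Φ b m + 2 ^ g m * eval (zs P b) (chr P (Φ m - P m)) := by
      rw [chr_eval hP, map_sub]
      unfold nat
      ring
    rw [e1]
    rcases Nat.eq_zero_or_pos m with h0 | h0
    · subst h0
      have hv : (chr P (Φ 0 - P 0)).vars ⊆ range 0 :=
        chr_vars hP (AdxRow.vars_sub_le (hΦ 0) (hP 0))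
      have h2 : |eval (zs P b) (chr P (Φ 0 - P 0))| ≤ 1 ^ N * nrm g (1 / 2) (chr P (Φ 0 - P 0)) :=
        eval_le_nrm hv (hN 0 hm) g le_rfl (fun i hi => absurd hi (Nat.not_lt_zero i))
      rw [one_pow, one_mul] at h2
      have h3 := h2.trans (hn 0 hm)
      rw [pow_zero, pow_one]
      have h4 : |2 ^ g 0 * eval (zs P b) (chr P (Φ 0 - P 0))| ≤ B := by
        rw [abs_mul, abs_of_pos (by positivity)]
        rw [le_div_iff₀ (by positivity)] at h3
        linarith
      calc |nat g Φ b 0 + 2 ^ g 0 * eval (zs P b) (chr P (Φ 0 - P 0))| ≤ S + B :=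
            (abs_add_le _ _).trans (add_le_add (hb 0 hm) h4)
        _ ≤ 2 * B * S := by nlinarith
    · obtain ⟨T, hT⟩ : ∃ T, T = (2 * B * S) ^ ((N + 1) ^ (m - 1)) := ⟨_, rfl⟩
      have hT1 : 1 ≤ T := by
        rw [hT]
        exact one_le_pow₀ hBS
      have hT2 : 2 * B * S ≤ T := by
        rw [hT]
        exact le_self_pow₀ hBS (by positivity)
      have hk : ∀ k < m, |zs P b k| ≤ T / 2 ^ g k := by
        intro k hk
        have h1 := ih k hk (by omega)
        rw [nat_eq, abs_mul, abs_of_pos (by positivity)] at h1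
        rw [le_div_iff₀ (by positivity)]
        have h2 : (2 * B * S) ^ ((N + 1) ^ k) ≤ T := by
          rw [hT]
          exact pow_le_pow_right₀ hBS (Nat.pow_le_pow_right (by omega) (by omega))
        linarith
      have hv : (chr P (Φ m - P m)).vars ⊆ range m :=
        chr_vars hP (AdxRow.vars_sub_le (hΦ m) (hP m))
      have h2 := eval_le_nrm hv (hN m hm) g hT1 hk
      have h3 : T ^ N * nrm g (1 / 2) (chr P (Φ m - P m)) ≤ T ^ N * (B / 2 ^ g m) :=
        mul_le_mul_of_nonneg_left (hn m hm) (by positivity)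
      have h4 : |2 ^ g m * eval (zs P b) (chr P (Φ m - P m))| ≤ T ^ N * B := by
        rw [abs_mul, abs_of_pos (by positivity)]
        calc 2 ^ g m * |eval (zs P b) (chr P (Φ m - P m))|
            ≤ 2 ^ g m * (T ^ N * (B / 2 ^ g m)) :=
              mul_le_mul_of_nonneg_left (h2.trans h3) (by positivity)
          _ = T ^ N * B := by field_simp
      have h5 : T ^ (N + 1) = (2 * B * S) ^ ((N + 1) ^ m) := by
        rw [hT, ← pow_mul, ← pow_succ, Nat.sub_add_cancel h0]
      have h6 : 1 ≤ T ^ N := one_le_pow₀ hT1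
      calc |nat g Φ b m + 2 ^ g m * eval (zs P b) (chr P (Φ m - P m))| ≤ S + T ^ N * B :=
            (abs_add_le _ _).trans (add_le_add (hb m hm) h4)
        _ ≤ T ^ N * (2 * B * S) := by
          have h7 : 1 ≤ T ^ N * B := by nlinarith
          have h8 : 1 * S ≤ T ^ N * B * S := mul_le_mul_of_nonneg_right h7 (by linarith)
          have h9 : T ^ N * B * 1 ≤ T ^ N * B * S := mul_le_mul_of_nonneg_left hS (by linarith)
          linarith
        _ ≤ T ^ N * T := mul_le_mul_of_nonneg_left hT2 (by positivity)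
        _ = (2 * B * S) ^ ((N + 1) ^ m) := by rw [← pow_succ, h5]

end

/-- Affine polynomials in affine frames are affine. -/
theorem deg_nuc_one {P : ℕ → PN} (hP : TriN P) (dP : ∀ m, (P m).totalDegree ≤ 1) (g : ℕ → ℕ)
    (k : ℕ) : (nuc g P k).totalDegree ≤ 1 := by
  induction k using Nat.strong_induction_on with
  | _ k ih =>
    rw [AdxRow.nuc_eq hP]
    refine (totalDegree_add _ _).trans (max_le ?_ ?_)
    all_goals first
      | refine (Dgb.deg_bind (B := 1) fun i hi => ih i (mem_range.1 (hP k hi))).trans ?_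
        rw [mul_one]
        exact dP k
      | refine (totalDegree_mul _ _).trans ?_
        rw [totalDegree_C, totalDegree_X]

theorem chr_aff {P : ℕ → PN} (hP : TriN P) (dP : ∀ m, (P m).totalDegree ≤ 1) {F : PN} {N : ℕ}
    (hF : F.totalDegree ≤ N) : (chr P F).totalDegree ≤ N := by
  unfold chr
  refine (Dgb.deg_bind (B := 1) fun k _ => deg_nuc_one hP dP _ k).trans ?_
  rw [mul_one]
  exact hF

/-! ### Straight lines -/

section

variable {D : NDat2} {P P' : ℕ → PN} {g g' : ℕ → ℕ} {x : D.Λ}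

theorem pp_seg (hS : D.Strt) (t : ℝ) :
    pp D x t = fun l => pp D x 0 l + t * (pp D x 1 l - pp D x 0 l) := by
  funext l
  unfold pp
  split_ifs with h
  · ring
  · obtain ⟨α, β, hq⟩ := Polynomial.exists_eq_X_add_C_of_natDegree_le_one (hS x l)
    rw [hq]
    simp only [Polynomial.eval_add, Polynomial.eval_mul, Polynomial.eval_C, Polynomial.eval_X]
    ring

/-- The slope of the height. -/
noncomputable def dz (D : NDat2) (P : ℕ → PN) (x : D.Λ) (m : ℕ) : ℝ :=
  zs P (pp D x 1) m - zs P (pp D x 0) m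

theorem zs_seg (hS : D.Strt) (hP : TriN P) (dP : ∀ m, (P m).totalDegree ≤ 1) (t : ℝ) (m : ℕ) :
    zs P (pp D x t) m = zs P (pp D x 0) m + t * dz D P x m := by
  have h2 := fun k => congrFun (pp_seg (x := x) hS t) k
  unfold dz zs
  rw [aff_eq (hP m) (dP m) (pp D x t), aff_eq (hP m) (dP m) (pp D x 0),
    aff_eq (hP m) (dP m) (pp D x 1), h2 m]
  have h3 : ∑ k ∈ range m, coeff (Finsupp.single k 1) (P m) * pp D x t k =
      ∑ k ∈ range m, coeff (Finsupp.single k 1) (P m) * pp D x 0 k +
        t * (∑ k ∈ range m, coeff (Finsupp.single k 1) (P m) * pp D x 1 k -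
          ∑ k ∈ range m, coeff (Finsupp.single k 1) (P m) * pp D x 0 k) := by
    rw [← Finset.sum_sub_distrib, Finset.mul_sum, ← Finset.sum_add_distrib]
    refine Finset.sum_congr rfl fun k _ => ?_
    rw [h2 k]
    ring
  rw [h3]
  ring

theorem zs_two (hS : D.Strt) (hP : TriN P) (dP : ∀ m, (P m).totalDegree ≤ 1) (t s : ℝ) (m : ℕ) :
    zs P (pp D x t) m - zs P (pp D x s) m = (t - s) * dz D P x m := by
  rw [zs_seg hS hP dP t, zs_seg hS hP dP s]
  ring

/-- The natural slope of the height, per window of length `2 ^ (-g 0)`. -/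
noncomputable def vn (D : NDat2) (g : ℕ → ℕ) (P : ℕ → PN) (x : D.Λ) (m : ℕ) : ℝ :=
  (nat g P (pp D x 1) m - nat g P (pp D x 0) m) / 2 ^ g 0

theorem nat_two (hS : D.Strt) (hP : TriN P) (dP : ∀ m, (P m).totalDegree ≤ 1) (g : ℕ → ℕ)
    (t s : ℝ) (m : ℕ) :
    nat g P (pp D x t) m - nat g P (pp D x s) m = 2 ^ g 0 * (t - s) * vn D g P x m := by
  have h1 := zs_two (x := x) hS hP dP t s m
  have h2 : vn D g P x m = 2 ^ g m * dz D P x m / 2 ^ g 0 := by
    unfold vn dz
    rw [nat_eq, nat_eq, ← mul_sub]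
  rw [nat_eq, nat_eq, ← mul_sub, h1, h2]
  field_simp

end

section

variable {P P' : ℕ → PN} {g g' : ℕ → ℕ}

theorem zs_time (hP : TriN P) (b b' : ℕ → ℝ) : zs P b 0 - zs P b' 0 = b 0 - b' 0 := by
  have h : eval b (P 0) = eval b' (P 0) :=
    Pool.SYS35.eval_congr (hP 0) fun i hi => absurd hi (Nat.not_lt_zero i)
  unfold zs
  rw [h]
  ring

/-- The matrix of two affine frames, in natural units. -/
noncomputable def Wk (P P' : ℕ → PN) (g : ℕ → ℕ) (m k : ℕ) : ℝ :=
  if k < m then 2 ^ g m * coeff (Finsupp.single k 1) (chr P' (P' m - P m)) / 2 ^ g k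
  else if k = m then 1 else 0

/-- **Two affine frames**: differences of heights. -/
theorem nat_dif (hP : TriN P) (hP' : TriN P') {m p : ℕ} (m1 : 1 ≤ m) (mp : m ≤ p)
    (hR : (chr P' (P' m - P m)).totalDegree ≤ 1) (b b' : ℕ → ℝ) :
    nat g P b m - nat g P b' m =
      2 ^ g m * coeff (Finsupp.single 0 1) (chr P' (P' m - P m)) * (b 0 - b' 0) +
      ∑ k ∈ Icc 1 p, Wk P P' g m k * (2 ^ g k / 2 ^ g' k) * (nat g' P' b k - nat g' P' b' k) := by
  classical
  have hv : (chr P' (P' m - P m)).vars ⊆ range m :=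
    chr_vars hP' (AdxRow.vars_sub_le (hP' m) (hP m))
  have e1 : nat g P b m - nat g P b' m = 2 ^ g m * ((zs P' b m - zs P' b' m) +
      ∑ k ∈ range m, coeff (Finsupp.single k 1) (chr P' (P' m - P m)) *
        (zs P' b k - zs P' b' k)) := by
    rw [nat_chg (P := P) hP' b m, nat_chg (P := P) hP' b' m, aff_eq hv hR, aff_eq hv hR]
    simp only [mul_sub, Finset.sum_sub_distrib]
    ring
  obtain ⟨a, rfl⟩ : ∃ a, m = a + 1 := ⟨m - 1, by omega⟩
  have e2 : ∑ k ∈ Icc 1 p, Wk P P' g (a + 1) k * (2 ^ g k / 2 ^ g' k) *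
      (nat g' P' b k - nat g' P' b' k) = ∑ k ∈ Icc 1 (a + 1), Wk P P' g (a + 1) k *
        (2 ^ g k / 2 ^ g' k) * (nat g' P' b k - nat g' P' b' k) := by
    symm
    refine Finset.sum_subset (Finset.Icc_subset_Icc le_rfl mp) fun k hk hk' => ?_
    rw [mem_Icc] at hk hk'
    have : Wk P P' g (a + 1) k = 0 := by
      unfold Wk
      rw [if_neg (by omega), if_neg (by omega)]
    rw [this, zero_mul, zero_mul]
  have e3 : ∀ f : ℕ → ℝ, ∑ k ∈ range (a + 1), f k = f 0 + ∑ k ∈ Icc 1 a, f k := by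
    intro f
    rw [Finset.sum_range_succ', ← Finset.Ico_add_one_right_eq_Icc, Finset.sum_Ico_eq_sum_range,
      Nat.add_sub_cancel, add_comm]
    simp only [add_comm]
  rw [e1, e2, Finset.sum_Icc_succ_top (by omega), e3, zs_time hP']
  have e4 : Wk P P' g (a + 1) (a + 1) = 1 := by
    unfold Wk
    rw [if_neg (lt_irrefl _), if_pos rfl]
  have e5 : ∑ k ∈ Icc 1 a, Wk P P' g (a + 1) k * (2 ^ g k / 2 ^ g' k) *
      (nat g' P' b k - nat g' P' b' k) = 2 ^ g (a + 1) * ∑ k ∈ Icc 1 a,
        coeff (Finsupp.single k 1) (chr P' (P' (a + 1) - P (a + 1))) *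
          (zs P' b k - zs P' b' k) := by
    rw [Finset.mul_sum]
    refine Finset.sum_congr rfl fun k hk => ?_
    rw [mem_Icc] at hk
    have : Wk P P' g (a + 1) k = 2 ^ g (a + 1) *
        coeff (Finsupp.single k 1) (chr P' (P' (a + 1) - P (a + 1))) / 2 ^ g k := by
      unfold Wk
      rw [if_pos (by omega)]
    rw [this, nat_eq, nat_eq]
    field_simp
  rw [e4, e5, nat_eq, nat_eq]
  field_simp
  ring

theorem coeff_flip (m : ℕ) (α : ℕ →₀ ℕ) :
    |coeff α (chr P' (P' m - P m))| = |coeff α (chr P' (P m - P' m))| := by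
  rw [← neg_sub (P m) (P' m)]
  unfold chr
  rw [map_neg, coeff_neg, abs_neg]

theorem wk_le {m k : ℕ} {B : ℝ} (hB : 1 ≤ B)
    (h : nrm g (1 / 2) (chr P' (P m - P' m)) ≤ B / 2 ^ g m) : |Wk P P' g m k| ≤ B := by
  unfold Wk
  split_ifs with h1 h2
  · have h3 := coeff_le_nrm g (by norm_num : (0 : ℝ) ≤ 1 / 2) (chr P' (P m - P' m))
      (Finsupp.single k 1)
    rw [Finsupp.weight_single, one_smul, half_pow] at h3
    have h4 := h3.trans h
    rw [abs_div, abs_mul, abs_of_pos (by positivity : (0 : ℝ) < 2 ^ g m),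
      abs_of_pos (by positivity : (0 : ℝ) < 2 ^ g k), div_le_iff₀ (by positivity), coeff_flip]
    rw [mul_one_div, div_le_div_iff₀ (by positivity) (by positivity)] at h4
    linarith
  · rw [abs_one]
    exact hB
  · rw [abs_zero]
    linarith

theorem wk_self (m : ℕ) : Wk P P' g m m = 1 := by
  unfold Wk
  rw [if_neg (lt_irrefl _), if_pos rfl]

theorem wk_zero {m k : ℕ} (h : m < k) : Wk P P' g m k = 0 := by
  unfold Wk
  rw [if_neg (by omega), if_neg (by omega)]

end

end Pool.AF37
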