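import Pool.Agent.H37.AF.Abs

/-!
# The abstract theorem
-/

set_option autoImplicit false

namespace Pool.AF37

open Finset Real MvPolynomial
open Pool.Agent.H49.Ent
open Pool.BFL (Pb Pl)

/-- **A polynomial with small derivatives** which is small along a line. -/
theorem l1_of_drv (n K : ℕ) : ∃ c : ℕ, ∀ (z C r lam : ℕ) (G : Pl (n + 1)) (e v : Fin n → ℝ),
    n + 1 ≤ z → G.totalDegree ≤ K → (∀ α ∈ G.support, r ≤ α.degree) →
    (∀ m, |e m| ≤ 2 ^ (C * z) ∧ |v m| ≤ 2 ^ (C * z)) →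
    (∀ a, r ≤ a → |(aeval (lnp e v) G).coeff a| ≤ 1 / 2 ^ ((lam + 2) * z)) →
    (∀ i, l1 (pderiv i G) ≤ 1 / 2 ^ ((lam + c + (C + 1) * K + 4) * z)) →
    l1 G ≤ 1 / 2 ^ (lam * z) := by
  obtain ⟨c₀, hc₀, htay⟩ := Pool.AF21.tay (n + 1) K
  obtain ⟨c, hc⟩ := exists_nat_ge c₀
  refine ⟨c, ?_⟩
  intro z C r lam G e v hz dG hG hev hfl hdr
  have hz1 : 1 ≤ z := by omega
  have h2z : (2 : ℝ) ≤ 2 ^ z := le_self_pow₀ (by norm_num) (by omega)
  have hnz : ((n + 1 : ℕ) : ℝ) ≤ 2 ^ z := by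
    have e5 : ((n + 1 : ℕ) : ℝ) ≤ 2 ^ (n + 1) := by
      exact_mod_cast (Nat.lt_two_pow_self (n := n + 1)).le
    exact e5.trans (pow_le_pow_right₀ (by norm_num) hz)
  have hcz : c₀ ≤ 2 ^ (c * z) := by
    have e5 : (c : ℝ) ≤ 2 ^ c := by exact_mod_cast (Nat.lt_two_pow_self (n := c)).le
    have e6 : (2 : ℝ) ^ c ≤ 2 ^ (c * z) :=
      pow_le_pow_right₀ (by norm_num) (Nat.le_mul_of_pos_right c hz1)
    linarith
  obtain ⟨T, hT⟩ : ∃ T : ℝ, T = ∑ i, l1 (pderiv i G) := ⟨_, rfl⟩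
  have hT0 : 0 ≤ T := by
    rw [hT]
    exact Finset.sum_nonneg fun _ _ => l1_nn _
  have hTle : T ≤ 1 / 2 ^ ((lam + c + (C + 1) * K + 3) * z) := by
    rw [hT]
    refine (Finset.sum_le_card_nsmul _ _ _ fun i _ => hdr i).trans ?_
    rw [Finset.card_univ, Fintype.card_fin, nsmul_eq_mul, mul_one_div,
      div_le_div_iff₀ (by positivity) (by positivity), one_mul,
      show (lam + c + (C + 1) * K + 4) * z = z + (lam + c + (C + 1) * K + 3) * z by ring, pow_add]
    exact mul_le_mul_of_nonneg_right hnz (by positivity)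
  have h4 := (Pool.AF21.drv (n + 1) G).2.2.2
  rw [← hT] at h4
  -- the constant
  have hg0 : |G.coeff 0| ≤ 1 / 2 ^ ((lam + 2) * z) + 2 ^ ((c + (C + 1) * K) * z) * T := by
    rcases Nat.eq_zero_or_pos r with hr | hr
    · obtain ⟨R, hR⟩ : ∃ R : ℝ, R = 2 ^ ((C + 1) * z) := ⟨_, rfl⟩
      have hR2 : 2 * (2 : ℝ) ^ (C * z) ≤ R := by
        rw [hR, add_mul, one_mul, pow_add]
        nlinarith [show (0 : ℝ) < 2 ^ (C * z) by positivity]
      have hR1 : 1 ≤ R := by
        rw [hR]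
        exact one_le_pow₀ (by norm_num)
      have hLb : ∀ i, l1p (lnp e v i) ≤ R := l1p_lnp hR1 fun m => by
        have := hev m
        linarith [this.1, this.2]
      obtain ⟨G', hG'⟩ : ∃ G', G' = G - MvPolynomial.C (G.coeff 0) := ⟨_, rfl⟩
      have d1 : G'.totalDegree ≤ K := by
        rw [hG']
        refine (totalDegree_sub _ _).trans (max_le dG ?_)
        rw [totalDegree_C]
        exact Nat.zero_le _
      have d2 : ∀ i, pderiv i G' = pderiv i G := by
        intro i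
        rw [hG', map_sub, pderiv_C, sub_zero]
      have d3 : l1 G' ≤ T := by
        have h5 := (Pool.AF21.drv (n + 1) G').2.2.2
        have h6 : coeff 0 G' = 0 := by
          rw [hG', coeff_sub, coeff_C, if_pos rfl, sub_self]
        rw [h6, abs_zero, zero_add, Finset.sum_congr rfl fun i _ => by rw [d2 i], ← hT] at h5
        exact h5
      obtain ⟨t1, _, _⟩ := htay G' (lnp e v) (fun _ => 0) R 0 d1 hR1 le_rfl zero_le_one hLb
        (fun i => by rw [Pool.AF21.l1p_zero])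
      have e1 : (aeval (lnp e v) G').coeff 0 = (aeval (lnp e v) G).coeff 0 - G.coeff 0 := by
        rw [hG', map_sub, Polynomial.coeff_sub]
        congr 1
        have h5 : aeval (lnp e v) (MvPolynomial.C (G.coeff 0) : Pl (n + 1)) = Polynomial.C (G.coeff 0) := by
          rw [aeval_C]
          rfl
        rw [h5, Polynomial.coeff_C_zero]
      have h5 := (l1p_coeff (aeval (lnp e v) G') 0).trans t1
      rw [e1] at h5
      have h6 : c₀ * R ^ K * l1 G' ≤ 2 ^ ((c + (C + 1) * K) * z) * T := by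
        have e2 : (2 : ℝ) ^ ((c + (C + 1) * K) * z) = 2 ^ (c * z) * R ^ K := by
          rw [hR, ← pow_mul, ← pow_add]
          congr 1
          ring
        rw [e2]
        exact mul_le_mul (mul_le_mul_of_nonneg_right hcz (by positivity)) d3 (l1_nn _)
          (by positivity)
      have h7 := hfl 0 (by omega)
      have h8 : ∀ x y B D : ℝ, |x - y| ≤ B → |x| ≤ D → |y| ≤ D + B := by
        intro x y B D b1 b2
        rw [abs_le] at *
        constructor <;> linarith [b1.1, b1.2, b2.1, b2.2]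
      exact h8 _ _ _ _ (h5.trans h6) h7
    · have h5 : G.coeff 0 = 0 := by
        by_contra hcon
        have := hG 0 (mem_support_iff.2 hcon)
        rw [map_zero] at this
        omega
      rw [h5, abs_zero]
      positivity
  have a1 : 2 ^ ((c + (C + 1) * K) * z) * T ≤ 1 / 2 ^ ((lam + 3) * z) := by
    calc 2 ^ ((c + (C + 1) * K) * z) * T
        ≤ 2 ^ ((c + (C + 1) * K) * z) * (1 / 2 ^ ((lam + c + (C + 1) * K + 3) * z)) :=
          mul_le_mul_of_nonneg_left hTle (by positivity)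
      _ = 2 ^ ((c + (C + 1) * K) * z) / 2 ^ ((lam + c + (C + 1) * K + 3) * z) := by ring
      _ ≤ _ := pow_div_le (by omega)
  have a2 : T ≤ 1 / 2 ^ ((lam + 3) * z) := by
    refine hTle.trans (one_div_le_one_div_of_le (by positivity) (pow_le_pow_right₀ (by norm_num)
      (Nat.mul_le_mul_right z (by omega))))
  have a3 : (1 : ℝ) / 2 ^ ((lam + 3) * z) ≤ 1 / 2 ^ ((lam + 2) * z) :=
    one_div_le_one_div_of_le (by positivity) (pow_le_pow_right₀ (by norm_num)
      (Nat.mul_le_mul_right z (by omega)))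
  have a4 : 3 * (1 / (2 : ℝ) ^ ((lam + 2) * z)) ≤ 1 / 2 ^ (lam * z) := by
    rw [mul_one_div, div_le_div_iff₀ (by positivity) (by positivity),
      show (lam + 2) * z = lam * z + z + z by ring, pow_add, pow_add]
    have h5 : (0 : ℝ) < 2 ^ (lam * z) := by positivity
    have h6 : (4 : ℝ) ≤ 2 ^ z * 2 ^ z := by nlinarith
    nlinarith
  linarith

/-- **The abstract theorem.** -/
theorem affS : AffS := by
  classical
  intro n K
  induction K with
  | zero =>
    intro A C S lam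
    obtain ⟨c, hl⟩ := l1_of_drv n 0
    refine ⟨0, lam + 2, 0, n + 1, ?_⟩
    intro z r hz Ω _ q Γ κ e v G E ϖ hq hϖ _ _ hev _ _ _ hpol
    rw [Nat.cast_zero, zero_mul]
    unfold Pb
    refine (Finset.sum_eq_zero fun ω _ => ?_).le
    rw [if_neg]
    rintro ⟨h1, h2⟩
    obtain ⟨p1, p2, p3, p4⟩ := hpol ω h1
    refine h2 (hl z C r lam (G ω) (e ω) (v ω) hz p1 p2 (hev ω h1) p4 fun i => ?_)
    have h3 := ((Pool.AF21.drv (n + 1) (G ω)).2.1 0 i p1).1
    rw [Nat.cast_zero, zero_mul] at h3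
    exact h3.trans (by positivity)
  | succ K ih =>
    intro A C S lam
    obtain ⟨c, hl⟩ := l1_of_drv n (K + 1)
    obtain ⟨k₁, Λ₁, N₁, z₁, hI⟩ := ih A C (S + K + 1) (lam + c + (C + 1) * (K + 1) + 4)
    obtain ⟨k₂, Λ₂, hns⟩ := ns n (K + 1) A C S (Λ₁ + C + 2)
    refine ⟨max k₁ k₂, max (max Λ₂ (Λ₁ + K + 2)) (lam + 2), (K + 2) * n + (n + 1) * N₁,
      max z₁ (n + 1), ?_⟩
    intro z r hz Ω _ q Γ κ e v G E ϖ hq hϖ hE hdet hev hcl hsl hG hpol
    have hz1 : n + 1 ≤ z := (le_max_right _ _).trans hz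
    have hz2 : z₁ ≤ z := (le_max_left _ _).trans hz
    have h2z : (2 : ℝ) ≤ 2 ^ z := le_self_pow₀ (by norm_num) (by omega)
    have hnz : (n : ℝ) ≤ 2 ^ z := by
      have e5 : (n : ℝ) ≤ 2 ^ n := by exact_mod_cast (Nat.lt_two_pow_self (n := n)).le
      exact e5.trans (pow_le_pow_right₀ (by norm_num) (by omega))
    have hKz : ((K + 1 : ℕ) : ℝ) ≤ 2 ^ ((K + 1) * z) := by
      have e5 : ((K + 1 : ℕ) : ℝ) ≤ 2 ^ (K + 1) := by
        exact_mod_cast (Nat.lt_two_pow_self (n := K + 1)).le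
      have e6 : (2 : ℝ) ^ (K + 1) ≤ 2 ^ ((K + 1) * z) :=
        pow_le_pow_right₀ (by norm_num) (Nat.le_mul_of_pos_right _ (by omega))
      linarith
    obtain ⟨k₀, hk₀⟩ : ∃ k₀, k₀ = max k₁ k₂ := ⟨_, rfl⟩
    obtain ⟨Λ, hΛ⟩ : ∃ Λ, Λ = max (max Λ₂ (Λ₁ + K + 2)) (lam + 2) := ⟨_, rfl⟩
    rw [← hk₀] at hdet hcl hsl
    rw [← hΛ] at hpol
    have hΛm : ∀ a, a ≤ Λ → (1 : ℝ) / 2 ^ (Λ * z) ≤ 1 / 2 ^ (a * z) := fun a ha =>
      one_div_le_one_div_of_le (by positivity) (pow_le_pow_right₀ (by norm_num)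
        (Nat.mul_le_mul_right z ha))
    -- the contexts
    have hdown : ∀ k ≤ k₀, ∀ ω ω', E ω → E ω' → κ k ω = κ k ω' → κ 0 ω = κ 0 ω' := by
      intro k
      induction k with
      | zero => exact fun _ ω ω' _ _ h => h
      | succ k ihk =>
        intro hk ω ω' h1 h2 h3
        exact ihk (by omega) ω ω' h1 h2 (hdet k (by omega) ω ω' h1 h2 h3)
    have hk2 : k₂ ≤ k₀ := by
      rw [hk₀]
      exact le_max_right _ _
    have hk1 : k₁ ≤ k₀ := by
      rw [hk₀]
      exact le_max_left _ _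
    have hstep := hns z r Ω q (Γ k₂) (κ k₂) e v G E ϖ hz1 hq.nonneg hϖ hev (hcl k₂ hk2)
      (hsl k₂ hk2) (fun ω ω' h1 h2 h3 => hG ω ω' h1 h2 (hdown k₂ hk2 ω ω' h1 h2 h3))
      (fun ω hω => ⟨(hpol ω hω).1, (hpol ω hω).2.2.1, fun a ha =>
        ((hpol ω hω).2.2.2 a ha).trans (hΛm _ (by
          rw [hΛ]
          exact (le_max_left _ _).trans (le_max_left _ _)))⟩)
    obtain ⟨E₁, hE₁⟩ : ∃ E₁ : Ω → Prop, E₁ = fun ω => E ω ∧ ∀ (m : Fin n) (a : ℕ), r ≤ a + 1 →
      |(aeval (lnp (e ω) (v ω)) (pderiv m.succ (G ω))).coeff a| ≤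
        1 / 2 ^ ((Λ₁ + C + 2) * z) := ⟨_, rfl⟩
    have hE₁E : ∀ ω, E₁ ω → E ω := fun ω hω => by
      rw [hE₁] at hω
      exact hω.1
    have hflat : ∀ (i : Fin (n + 1)) (ω : Ω), E₁ ω → ∀ a, r - 1 ≤ a →
        |(aeval (lnp (e ω) (v ω)) (pderiv i (G ω))).coeff a| ≤ 1 / 2 ^ (Λ₁ * z) := by
      intro i ω hω a ha
      have hω2 := hω
      rw [hE₁] at hω2
      refine Fin.cases ?_ (fun m => ?_) i
      · have h1 := (Pool.AF21.drv (n + 1) (G ω)).1 (lnp (e ω) (v ω))
        rw [Fin.sum_univ_succ] at h1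
        have h2 : Polynomial.derivative (lnp (e ω) (v ω) 0) = 1 := by
          unfold lnp
          rw [Fin.cons_zero, Polynomial.derivative_X]
        have h3 : ∀ m : Fin n, Polynomial.derivative (lnp (e ω) (v ω) m.succ) =
            Polynomial.C (v ω m) := by
          intro m
          unfold lnp
          rw [Fin.cons_succ, map_add, Polynomial.derivative_C, zero_add,
            Polynomial.derivative_C_mul, Polynomial.derivative_X, mul_one]
        rw [h2, mul_one] at h1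
        have h4 : (aeval (lnp (e ω) (v ω)) (pderiv 0 (G ω))).coeff a =
            (aeval (lnp (e ω) (v ω)) (G ω)).coeff (a + 1) * ((a : ℝ) + 1) -
              ∑ m : Fin n, (aeval (lnp (e ω) (v ω)) (pderiv m.succ (G ω))).coeff a * v ω m := by
          have h5 := congrArg (fun p => Polynomial.coeff p a) h1
          beta_reduce at h5
          rw [Polynomial.coeff_derivative, Polynomial.coeff_add, Polynomial.finsetSum_coeff] at h5
          simp only [h3, Polynomial.coeff_mul_C] at h5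
          linarith
        rw [h4]
        have a1 : |(aeval (lnp (e ω) (v ω)) (G ω)).coeff (a + 1) * ((a : ℝ) + 1)| ≤
            1 / 2 ^ ((Λ₁ + 1) * z) := by
          rcases Nat.lt_or_ge K a with haK | haK
          · rw [Polynomial.coeff_eq_zero_of_natDegree_lt (lt_of_le_of_lt
              (deg_curve (lnp_deg _ _) (hpol ω hω2.1).1) (by omega)), zero_mul, abs_zero]
            positivity
          · have b1 := (hpol ω hω2.1).2.2.2 (a + 1) (by omega)
            have b2 : |(a : ℝ) + 1| ≤ 2 ^ ((K + 1) * z) := by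
              rw [abs_of_nonneg (by positivity)]
              refine le_trans ?_ hKz
              exact_mod_cast Nat.succ_le_succ haK
            rw [abs_mul]
            calc _ ≤ 1 / 2 ^ (Λ * z) * 2 ^ ((K + 1) * z) :=
                  mul_le_mul b1 b2 (abs_nonneg _) (by positivity)
              _ = 2 ^ ((K + 1) * z) / 2 ^ (Λ * z) := by ring
              _ ≤ _ := pow_div_le (by omega)
        have a2 : |∑ m : Fin n, (aeval (lnp (e ω) (v ω)) (pderiv m.succ (G ω))).coeff a * v ω m| ≤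
            1 / 2 ^ ((Λ₁ + 1) * z) := by
          refine (Finset.abs_sum_le_sum_abs _ _).trans ?_
          have b1 : ∀ m ∈ (univ : Finset (Fin n)),
              |(aeval (lnp (e ω) (v ω)) (pderiv m.succ (G ω))).coeff a * v ω m| ≤
                1 / 2 ^ ((Λ₁ + C + 2) * z) * 2 ^ (C * z) := by
            intro m _
            rw [abs_mul]
            exact mul_le_mul (hω2.2 m a (by omega)) (hev ω hω2.1 m).2 (abs_nonneg _)
              (by positivity)
          refine (Finset.sum_le_card_nsmul _ _ _ b1).trans ?_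
          rw [Finset.card_univ, Fintype.card_fin, nsmul_eq_mul]
          calc (n : ℝ) * (1 / 2 ^ ((Λ₁ + C + 2) * z) * 2 ^ (C * z))
              ≤ 2 ^ z * (1 / 2 ^ ((Λ₁ + C + 2) * z) * 2 ^ (C * z)) :=
                mul_le_mul_of_nonneg_right hnz (by positivity)
            _ = 2 ^ ((C + 1) * z) / 2 ^ ((Λ₁ + C + 2) * z) := by
                rw [show (C + 1) * z = z + C * z by ring, pow_add]
                ring
            _ ≤ _ := pow_div_le (by omega)
        have a3 : (1 : ℝ) / 2 ^ ((Λ₁ + 1) * z) + 1 / 2 ^ ((Λ₁ + 1) * z) ≤ 1 / 2 ^ (Λ₁ * z) := by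
          rw [← add_div, div_le_div_iff₀ (by positivity) (by positivity),
            show (Λ₁ + 1) * z = Λ₁ * z + z by ring, pow_add]
          nlinarith [show (0 : ℝ) < 2 ^ (Λ₁ * z) by positivity]
        exact (abs_sub _ _).trans ((add_le_add a1 a2).trans a3)
      · refine (hω2.2 m a (by omega)).trans (one_div_le_one_div_of_le (by positivity)
          (pow_le_pow_right₀ (by norm_num) (Nat.mul_le_mul_right z (by omega))))
    have hdr : ∀ i : Fin (n + 1), Pb q (fun ω => E₁ ω ∧ ¬ l1 (pderiv i (G ω)) ≤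
        1 / 2 ^ ((lam + c + (C + 1) * (K + 1) + 4) * z)) ≤ N₁ * ϖ := by
      intro i
      refine hI z (r - 1) hz2 Ω q Γ κ e v (fun ω => pderiv i (G ω)) E₁ ϖ hq hϖ
        (fun ω hω => hE ω (hE₁E ω hω))
        (fun k hk ω ω' h1 h2 => hdet k (by omega) ω ω' (hE₁E ω h1) (hE₁E ω' h2))
        (fun ω hω => hev ω (hE₁E ω hω))
        (fun k hk ω ω' h1 h2 => hcl k (by omega) ω ω' (hE₁E ω h1) (hE₁E ω' h2))
        (fun k hk m₀ ka al h1 h2 E' h3 => hsl k (by omega) m₀ ka al h1 h2 E'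
          fun ω hω => hE₁E ω (h3 ω hω))
        (fun ω ω' h1 h2 h3 => by
          beta_reduce
          rw [hG ω ω' (hE₁E ω h1) (hE₁E ω' h2) h3])
        (fun ω hω => ?_)
      obtain ⟨p1, p2, p3, _⟩ := hpol ω (hE₁E ω hω)
      obtain ⟨d1, d2⟩ := (Pool.AF21.drv (n + 1) (G ω)).2.1 (K + 1) i p1
      refine ⟨d2, (Pool.AF21.drv (n + 1) (G ω)).2.2.1 r i p2, ?_, hflat i ω hω⟩
      refine d1.trans ?_
      rw [show (S + K + 1) * z = (K + 1) * z + S * z by ring, pow_add]
      exact mul_le_mul hKz p3 (l1_nn _) (by positivity)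
    have hcov : Pb q (fun ω => E ω ∧ ¬ l1 (G ω) ≤ 1 / 2 ^ (lam * z)) ≤
        ∑ o : Option (Fin (n + 1)), Pb q (fun ω =>
          match o with
          | none => E ω ∧ ¬ ∀ (m : Fin n) (a : ℕ), r ≤ a + 1 →
              |(aeval (lnp (e ω) (v ω)) (pderiv m.succ (G ω))).coeff a| ≤
                1 / 2 ^ ((Λ₁ + C + 2) * z)
          | some i => E₁ ω ∧ ¬ l1 (pderiv i (G ω)) ≤
              1 / 2 ^ ((lam + c + (C + 1) * (K + 1) + 4) * z)) := by
      refine pb_sum hq.nonneg univ fun ω _ hω => ?_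
      by_cases h1 : E₁ ω
      · by_contra hcon
        push Not at hcon
        refine hω.2 (hl z C r lam (G ω) (e ω) (v ω) hz1 (hpol ω hω.1).1 (hpol ω hω.1).2.1
          (hev ω hω.1) (fun a ha => ((hpol ω hω.1).2.2.2 a ha).trans (hΛm _ (by
            rw [hΛ]
            exact le_max_right _ _))) fun i => ?_)
        have h2 := hcon (some i) (Finset.mem_univ _)
        by_contra h3
        exact h2 ⟨h1, not_le.1 h3⟩
      · refine ⟨none, Finset.mem_univ _, hω.1, fun h2 => h1 ?_⟩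
        rw [hE₁]
        exact ⟨hω.1, h2⟩
    refine hcov.trans ?_
    rw [Fintype.sum_option]
    have e1 : ∑ i : Fin (n + 1), Pb q (fun ω => E₁ ω ∧ ¬ l1 (pderiv i (G ω)) ≤
        1 / 2 ^ ((lam + c + (C + 1) * (K + 1) + 4) * z)) ≤ (n + 1 : ℕ) * (N₁ * ϖ) := by
      refine (Finset.sum_le_card_nsmul _ _ _ fun i _ => hdr i).trans ?_
      rw [Finset.card_univ, Fintype.card_fin, nsmul_eq_mul]
    refine (add_le_add hstep e1).trans (le_of_eq ?_)
    push_cast
    ring

end Pool.AF37
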