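import Pool.Agent.H37.AF.Ind
import Pool.Agent.H37.AF.AffS

/-!
# Affine frames: the event
-/

set_option autoImplicit false

namespace Pool.AF37

/-- **Affine frames.** -/
theorem affEv : AffEv := aff_ev affS

end Pool.AF37
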