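import Pool.Agent.H37.AF.Flt
import Pool.Agent.H21.AF.Tay

/-!
# The abstract theorem: one scale
-/

set_option autoImplicit false

namespace Pool.AF37

open Finset Real MvPolynomial
open Pool.Agent.H49.Ent
open Pool.BFL (Pb Pl)

/-- The difference of two lines. -/
noncomputable def dfl {n : ℕ} (a b : Fin n → ℝ) : Fin (n + 1) → Polynomial ℝ :=
  Fin.cons 0 fun m => Polynomial.C (a m) + Polynomial.C (b m) * Polynomial.X

theorem lnp_add {n : ℕ} (e v a b : Fin n → ℝ) :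
    (fun i => lnp e v i + dfl a b i) = lnp (fun m => e m + a m) fun m => v m + b m := by
  funext i
  unfold lnp dfl
  refine Fin.cases ?_ (fun m => ?_) i
  · rw [Fin.cons_zero, Fin.cons_zero, Fin.cons_zero, add_zero]
  · rw [Fin.cons_succ, Fin.cons_succ, Fin.cons_succ, Polynomial.C_add, Polynomial.C_add]
    ring

theorem l1p_coeff (p : Polynomial ℝ) (a : ℕ) : |p.coeff a| ≤ l1p p := by
  by_cases h : a ∈ p.support
  · exact Finset.single_le_sum (f := fun a => |p.coeff a|) (fun _ _ => abs_nonneg _) h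
  · rw [Polynomial.notMem_support_iff.1 h, abs_zero]
    exact Pool.AF21.l1p_nonneg p

theorem l1p_lin (a b : ℝ) : l1p (Polynomial.C a + Polynomial.C b * Polynomial.X) ≤ |a| + |b| := by
  have h1 : l1p (Polynomial.C a + Polynomial.C b * Polynomial.X) =
      ∑ i ∈ range 2, |(Polynomial.C a + Polynomial.C b * Polynomial.X : Polynomial ℝ).coeff i| := by
    refine Pool.AF21.l1p_eq fun i hi => ?_
    rw [mem_range]
    by_contra h
    rw [Polynomial.mem_support_iff] at hi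
    refine hi (Polynomial.coeff_eq_zero_of_natDegree_lt (lt_of_le_of_lt ?_ (not_lt.1 h)))
    refine (Polynomial.natDegree_add_le _ _).trans (max_le ?_ ?_)
    · rw [Polynomial.natDegree_C]
      exact Nat.zero_le _
    · exact (Polynomial.natDegree_C_mul_le _ _).trans Polynomial.natDegree_X_le
  rw [h1, Finset.sum_range_succ, Finset.sum_range_one]
  simp [Polynomial.coeff_X_zero, Polynomial.coeff_C]

theorem l1p_lnp {n : ℕ} {e v : Fin n → ℝ} {R : ℝ} (hR : 1 ≤ R) (h : ∀ m, |e m| + |v m| ≤ R)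
    (i : Fin (n + 1)) : l1p (lnp e v i) ≤ R := by
  unfold lnp
  refine Fin.cases ?_ (fun m => ?_) i
  · rw [Fin.cons_zero]
    have := l1p_lin 0 1
    rw [Polynomial.C_0, zero_add, Polynomial.C_1, one_mul, abs_zero, abs_one, zero_add] at this
    exact this.trans hR
  · rw [Fin.cons_succ]
    exact (l1p_lin _ _).trans (h m)

theorem l1p_dfl {n : ℕ} {a b : Fin n → ℝ} {h : ℝ} (h0 : 0 ≤ h) (hab : ∀ m, |a m| + |b m| ≤ h)
    (i : Fin (n + 1)) : l1p (dfl a b i) ≤ h := by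
  unfold dfl
  refine Fin.cases ?_ (fun m => ?_) i
  · rw [Fin.cons_zero, Pool.AF21.l1p_zero]
    exact h0
  · rw [Fin.cons_succ]
    exact (l1p_lin _ _).trans (hab m)

/-- The first order term. -/
theorem fst_term {n : ℕ} (L : Fin (n + 1) → Polynomial ℝ) (a b : Fin n → ℝ) (G : Pl (n + 1))
    (s : ℕ) : (∑ i, aeval L (pderiv i G) * dfl a b i).coeff (s + 1) =
      ∑ m : Fin n, ((aeval L (pderiv m.succ G)).coeff (s + 1) * a m +
        (aeval L (pderiv m.succ G)).coeff s * b m) := by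
  rw [Fin.sum_univ_succ, Polynomial.coeff_add, Polynomial.finset_sum_coeff]
  unfold dfl
  rw [Fin.cons_zero, mul_zero, Polynomial.coeff_zero, zero_add]
  refine Finset.sum_congr rfl fun m _ => ?_
  rw [Fin.cons_succ, mul_add, Polynomial.coeff_add, Polynomial.coeff_mul_C, ← mul_assoc,
    Polynomial.coeff_mul_X, Polynomial.coeff_mul_C]

/-- **Two lines.** -/
theorem two_lines (n K : ℕ) : ∃ c : ℕ, ∀ (z C S k r : ℕ) (G : Pl (n + 1)) (e v e' v' : Fin n → ℝ)
    (δ : ℝ), 1 ≤ z → C + 1 ≤ k → G.totalDegree ≤ K → l1 G ≤ 2 ^ (S * z) →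
    (∀ m, |e m| ≤ 2 ^ (C * z) ∧ |v m| ≤ 2 ^ (C * z)) →
    (∀ m, |e' m - e m| ≤ 2 ^ (C * z) / 2 ^ (k * z) ∧ |v' m - v m| ≤ 2 ^ (C * z) / 2 ^ (k * z)) →
    (∀ a, r ≤ a → |(aeval (lnp e v) G).coeff a| ≤ δ) →
    (∀ a, r ≤ a → |(aeval (lnp e' v') G).coeff a| ≤ δ) →
    (∀ a, r ≤ a + 1 → |∑ m : Fin n, ((aeval (lnp e v) (pderiv m.succ G)).coeff (a + 1) *
        (e' m - e m) + (aeval (lnp e v) (pderiv m.succ G)).coeff a * (v' m - v m))| ≤
      2 * δ + 2 ^ ((c + (C + 1) * (K + 2) + S) * z) / 2 ^ (2 * k * z)) ∧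
    ∀ (m : Fin n) (a : ℕ), |(aeval (lnp e' v') (pderiv m.succ G)).coeff a -
      (aeval (lnp e v) (pderiv m.succ G)).coeff a| ≤
        2 ^ ((c + K + (C + 1) * (K + 2) + S) * z) / 2 ^ (k * z) := by
  obtain ⟨c₀, hc₀, htay⟩ := Pool.AF21.tay (n + 1) K
  obtain ⟨c, hc⟩ := exists_nat_ge c₀
  refine ⟨c, ?_⟩
  intro z C S k r G e v e' v' δ hz hk dG hG hev hdif h1 h2
  have hcz : c₀ ≤ 2 ^ (c * z) := by
    have e5 : (c : ℝ) ≤ 2 ^ c := by exact_mod_cast (Nat.lt_two_pow_self (n := c)).le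
    have e6 : (2 : ℝ) ^ c ≤ 2 ^ (c * z) :=
      pow_le_pow_right₀ (by norm_num) (Nat.le_mul_of_pos_right c hz)
    linarith
  have h2z : (2 : ℝ) ≤ 2 ^ z := le_self_pow₀ (by norm_num) (by omega)
  obtain ⟨R, hR⟩ : ∃ R : ℝ, R = 2 ^ ((C + 1) * z) := ⟨_, rfl⟩
  have hR2 : 2 * (2 : ℝ) ^ (C * z) ≤ R := by
    rw [hR, add_mul, one_mul, pow_add]
    nlinarith [show (0 : ℝ) < 2 ^ (C * z) by positivity]
  have hR1 : 1 ≤ R := by
    rw [hR]
    exact one_le_pow₀ (by norm_num)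
  obtain ⟨h, hh⟩ : ∃ h : ℝ, h = R / 2 ^ (k * z) := ⟨_, rfl⟩
  have hh0 : 0 ≤ h := by
    rw [hh]
    positivity
  have hh1 : h ≤ 1 := by
    rw [hh, div_le_one (by positivity), hR]
    exact pow_le_pow_right₀ (by norm_num) (Nat.mul_le_mul_right z hk)
  have hLb : ∀ i, l1p (lnp e v i) ≤ R := l1p_lnp hR1 fun m => by
    have := hev m
    linarith [this.1, this.2]
  have hHb : ∀ i, l1p (dfl (fun m => e' m - e m) (fun m => v' m - v m) i) ≤ h :=
    l1p_dfl hh0 fun m => by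
      have h3 := hdif m
      have h4 : 2 ^ (C * z) / 2 ^ (k * z) + 2 ^ (C * z) / 2 ^ (k * z) ≤ h := by
        rw [hh, ← add_div]
        exact div_le_div_of_nonneg_right (by linarith) (by positivity)
      linarith [h3.1, h3.2]
  have hL' : (fun i => lnp e v i + dfl (fun m => e' m - e m) (fun m => v' m - v m) i) =
      lnp e' v' := by
    rw [lnp_add]
    congr 1 <;> funext m <;> ring
  constructor
  · intro a ha
    obtain ⟨_, _, t3⟩ := htay G (lnp e v) (dfl (fun m => e' m - e m) (fun m => v' m - v m)) R h dG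
      hR1 hh0 hh1 hLb hHb
    rw [hL'] at t3
    have h3 := (l1p_coeff _ (a + 1)).trans t3
    rw [Polynomial.coeff_sub, Polynomial.coeff_sub, fst_term] at h3
    have h4 := h1 (a + 1) ha
    have h5 := h2 (a + 1) ha
    have h6 : c₀ * R ^ K * h ^ 2 * l1 G ≤
        2 ^ ((c + (C + 1) * (K + 2) + S) * z) / 2 ^ (2 * k * z) := by
      have e1 : R ^ K * h ^ 2 = 2 ^ ((C + 1) * (K + 2) * z) / 2 ^ (2 * k * z) := by
        rw [hh, div_pow, ← mul_div_assoc, ← pow_add, hR, ← pow_mul, ← pow_mul]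
        congr 2 <;> ring
      calc c₀ * R ^ K * h ^ 2 * l1 G = c₀ * (R ^ K * h ^ 2) * l1 G := by ring
        _ ≤ 2 ^ (c * z) * (R ^ K * h ^ 2) * 2 ^ (S * z) := by
            refine mul_le_mul (mul_le_mul_of_nonneg_right hcz (by positivity)) hG
              (l1_nn G) (by positivity)
        _ = _ := by
            rw [e1]
            rw [show (c + (C + 1) * (K + 2) + S) * z = c * z + (C + 1) * (K + 2) * z + S * z by ring,
              pow_add, pow_add]
            ring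
    have h7 : ∀ x y w B D : ℝ, |x - y - w| ≤ B → |x| ≤ D → |y| ≤ D → |w| ≤ 2 * D + B := by
      intro x y w B D b1 b2 b3
      rw [abs_le] at *
      constructor <;> linarith [b1.1, b1.2, b2.1, b2.2, b3.1, b3.2]
    refine (h7 _ _ _ _ _ h3 h5 h4).trans ?_
    linarith
  · intro m a
    have dG' := ((Pool.AF21.drv (n + 1) G).2.1 K m.succ dG)
    obtain ⟨_, t2, _⟩ := htay (pderiv m.succ G) (lnp e v)
      (dfl (fun m => e' m - e m) (fun m => v' m - v m)) R h (dG'.2.trans (Nat.sub_le _ _))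
      hR1 hh0 hh1 hLb hHb
    rw [hL'] at t2
    have h3 := (l1p_coeff _ a).trans t2
    rw [Polynomial.coeff_sub] at h3
    refine h3.trans ?_
    have hK : (K : ℝ) ≤ 2 ^ (K * z) := by
      have e5 : (K : ℝ) ≤ 2 ^ K := by exact_mod_cast (Nat.lt_two_pow_self (n := K)).le
      have e6 : (2 : ℝ) ^ K ≤ 2 ^ (K * z) :=
        pow_le_pow_right₀ (by norm_num) (Nat.le_mul_of_pos_right K hz)
      linarith
    have e1 : R ^ K * h ≤ 2 ^ ((C + 1) * (K + 2) * z) / 2 ^ (k * z) := by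
      rw [hh, ← mul_div_assoc, ← pow_succ, hR, ← pow_mul]
      refine div_le_div_of_nonneg_right (pow_le_pow_right₀ (by norm_num) ?_) (by positivity)
      nlinarith [Nat.zero_le ((C + 1) * z)]
    calc c₀ * R ^ K * h * l1 (pderiv m.succ G) = c₀ * (R ^ K * h) * l1 (pderiv m.succ G) := by ring
      _ ≤ 2 ^ (c * z) * (2 ^ ((C + 1) * (K + 2) * z) / 2 ^ (k * z)) * (2 ^ (K * z) * 2 ^ (S * z)) := by
          refine mul_le_mul (mul_le_mul hcz e1 (by positivity) (by positivity))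
            (dG'.1.trans (mul_le_mul hK hG (l1_nn G) (by positivity))) (l1_nn _) (by positivity)
      _ = _ := by
          rw [show (c + K + (C + 1) * (K + 2) + S) * z =
            c * z + K * z + (C + 1) * (K + 2) * z + S * z by ring, pow_add, pow_add, pow_add]
          ring

theorem pow_div_le {a b c z : ℕ} (h : a + c ≤ b) : (2 : ℝ) ^ (a * z) / 2 ^ (b * z) ≤ 1 / 2 ^ (c * z) := by
  rw [div_le_div_iff₀ (by positivity) (by positivity), one_mul, ← pow_add, ← add_mul]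
  exact pow_le_pow_right₀ (by norm_num) (Nat.mul_le_mul_right z h)

/-- **One scale, law level.** -/
theorem ns (n K A C S lam : ℕ) : ∃ k Λ : ℕ, ∀ (z r : ℕ) (Ω : Type) [Fintype Ω] (q : Ω → ℝ)
    (Γ : Type) (κ : Ω → Γ) (e v : Ω → Fin n → ℝ) (G : Ω → Pl (n + 1)) (E : Ω → Prop) (ϖ : ℝ),
    n + 1 ≤ z → (∀ ω, 0 ≤ q ω) → 0 ≤ ϖ →
    (∀ ω, E ω → ∀ m, |e ω m| ≤ 2 ^ (C * z) ∧ |v ω m| ≤ 2 ^ (C * z)) →
    (∀ ω ω', E ω → E ω' → κ ω = κ ω' → ∀ m,
      |e ω m - e ω' m| ≤ 2 ^ (C * z) / 2 ^ (k * z) ∧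
        |v ω m - v ω' m| ≤ 2 ^ (C * z) / 2 ^ (k * z)) →
    (∀ (m₀ : Fin n) (ka : Γ → Fin n → ℝ) (al : Γ → ℝ), (∀ c, ka c m₀ = 1) →
      (∀ c m, |ka c m| ≤ 1) → ∀ E' : Ω → Prop, (∀ ω, E' ω → E ω) →
      (∀ ω, E' ω → |∑ m, ka (κ ω) m * v ω m - al (κ ω)| ≤ 1 / 2 ^ ((k + A) * z)) →
      Pb q E' ≤ ϖ) →
    (∀ ω ω', E ω → E ω' → κ ω = κ ω' → G ω = G ω') →
    (∀ ω, E ω → (G ω).totalDegree ≤ K ∧ l1 (G ω) ≤ 2 ^ (S * z) ∧
      ∀ a, r ≤ a → |(aeval (lnp (e ω) (v ω)) (G ω)).coeff a| ≤ 1 / 2 ^ (Λ * z)) →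
    Pb q (fun ω => E ω ∧ ¬ ∀ (m : Fin n) (a : ℕ), r ≤ a + 1 →
      |(aeval (lnp (e ω) (v ω)) (pderiv m.succ (G ω))).coeff a| ≤ 1 / 2 ^ (lam * z)) ≤
      ((K + 1) * n : ℕ) * ϖ := by
  classical
  obtain ⟨c, htwo⟩ := two_lines n K
  obtain ⟨Q', hQ'⟩ : ∃ Q', Q' = c + K + (C + 1) * (K + 2) + S := ⟨_, rfl⟩
  obtain ⟨Q, hQ⟩ : ∃ Q, Q = A + (A + C + 2) * (K + 1) := ⟨_, rfl⟩
  obtain ⟨k, hk⟩ : ∃ k, k = Q + Q' + lam + C + 4 := ⟨_, rfl⟩
  obtain ⟨Λ, hΛ⟩ : ∃ Λ, Λ = k + Q + lam + 4 := ⟨_, rfl⟩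
  refine ⟨k, Λ, ?_⟩
  intro z r Ω _ q Γ κ e v G E ϖ hz hq hϖ hev hcl hns hG hpol
  have hz1 : 1 ≤ z := by omega
  have h2z : (2 : ℝ) ≤ 2 ^ z := le_self_pow₀ (by norm_num) (by omega)
  have hnz : (n : ℝ) ≤ 2 ^ z := by
    have e5 : (n : ℝ) ≤ 2 ^ n := by exact_mod_cast (Nat.lt_two_pow_self (n := n)).le
    exact e5.trans (pow_le_pow_right₀ (by norm_num) (by omega))
  -- the data of a context
  have key : ∀ x : Γ, ∃ (es vs : Fin n → ℝ) (Gs : Pl (n + 1)), ∀ ω, E ω → κ ω = x →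
      Gs = G ω ∧ (∀ m, |es m| ≤ 2 ^ (C * z) ∧ |vs m| ≤ 2 ^ (C * z)) ∧
      (∀ m, |e ω m - es m| ≤ 2 ^ (C * z) / 2 ^ (k * z) ∧
        |v ω m - vs m| ≤ 2 ^ (C * z) / 2 ^ (k * z)) ∧
      ∀ a, r ≤ a → |(aeval (lnp es vs) Gs).coeff a| ≤ 1 / 2 ^ (Λ * z) := by
    intro x
    by_cases h : ∃ ω₀, E ω₀ ∧ κ ω₀ = x
    · obtain ⟨ω₀, h1, h2⟩ := h
      exact ⟨e ω₀, v ω₀, G ω₀, fun ω hω e1 => ⟨hG _ _ h1 hω (h2.trans e1.symm), hev ω₀ h1,
        hcl ω ω₀ hω h1 (e1.trans h2.symm), (hpol ω₀ h1).2.2⟩⟩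
    · exact ⟨0, 0, 0, fun ω hω e1 => absurd ⟨ω, hω, e1⟩ h⟩
  choose es vs Gs hkey using key
  obtain ⟨f, hf⟩ : ∃ f : Γ → Fin n → ℕ → ℝ, f = fun x m a =>
    (aeval (lnp (es x) (vs x)) (pderiv m.succ (Gs x))).coeff a := ⟨_, rfl⟩
  obtain ⟨δ₁, hδ₁⟩ : ∃ δ₁ : ℝ, δ₁ = 2 * (1 / 2 ^ (Λ * z)) + 2 ^ (Q' * z) / 2 ^ (2 * k * z) := ⟨_, rfl⟩
  have hδ0 : 0 ≤ δ₁ := by
    rw [hδ₁]
    positivity
  have htw : ∀ ω, E ω → (∀ a, r ≤ a + 1 → |∑ m : Fin n, (f (κ ω) m (a + 1) *
      (e ω m - es (κ ω) m) + f (κ ω) m a * (v ω m - vs (κ ω) m))| ≤ δ₁) ∧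
      ∀ (m : Fin n) (a : ℕ), |(aeval (lnp (e ω) (v ω)) (pderiv m.succ (G ω))).coeff a -
        f (κ ω) m a| ≤ 2 ^ (Q' * z) / 2 ^ (k * z) := by
    intro ω hω
    obtain ⟨g1, g2, g3, g4⟩ := hkey (κ ω) ω hω rfl
    obtain ⟨p1, p2, p3⟩ := hpol ω hω
    rw [← g1] at p1 p2 p3
    obtain ⟨t1, t2⟩ := htwo z C S k r (Gs (κ ω)) (es (κ ω)) (vs (κ ω)) (e ω) (v ω)
      (1 / 2 ^ (Λ * z)) hz1 (by omega) p1 p2 g2 g3 g4 p3
    rw [← g1, hf]
    refine ⟨fun a ha => (t1 a ha).trans ?_, fun m a => (t2 m a).trans (le_of_eq ?_)⟩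
    · rw [hδ₁]
      refine add_le_add le_rfl (div_le_div_of_nonneg_right (pow_le_pow_right₀ (by norm_num)
        (Nat.mul_le_mul_right z (by omega))) (by positivity))
    · rw [hQ']
  -- the coefficients, from the top
  obtain ⟨ε, hε⟩ : ∃ ε : ℕ → ℝ, ε = fun s => 2 ^ ((k + A + (A + C + 2) * s) * z) * δ₁ := ⟨_, rfl⟩
  have hεm : ∀ s, ε s ≤ ε (s + 1) := by
    intro s
    rw [hε]
    refine mul_le_mul_of_nonneg_right (pow_le_pow_right₀ (by norm_num)
      (Nat.mul_le_mul_right z ?_)) hδ0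
    nlinarith
  have hε0 : ∀ s, 0 ≤ ε s := by
    intro s
    rw [hε]
    positivity
  have hεr : ∀ s, 2 ^ ((k + A) * z) * (δ₁ + n * (ε s * (2 ^ (C * z) / 2 ^ (k * z)))) ≤ ε (s + 1) := by
    intro s
    have e1 : (2 : ℝ) ^ ((k + A) * z) * (n * (ε s * (2 ^ (C * z) / 2 ^ (k * z)))) =
        n * (2 ^ ((A + C) * z) * ε s) := by
      rw [show (k + A) * z = k * z + A * z by ring, show (A + C) * z = A * z + C * z by ring,
        pow_add, pow_add]
      field_simp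
    have e2 : (n : ℝ) * (2 ^ ((A + C) * z) * ε s) ≤ 2 ^ z * (2 ^ ((A + C) * z) * ε s) :=
      mul_le_mul_of_nonneg_right hnz (mul_nonneg (by positivity) (hε0 s))
    have e3 : (2 : ℝ) ^ z * (2 ^ ((A + C) * z) * ε s) =
        2 ^ ((k + A + (A + C + 2) * s + (A + C + 1)) * z) * δ₁ := by
      rw [hε]
      beta_reduce
      rw [show (k + A + (A + C + 2) * s + (A + C + 1)) * z =
        z + (A + C) * z + (k + A + (A + C + 2) * s) * z by ring, pow_add, pow_add]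
      ring
    have e4 : (2 : ℝ) ^ ((k + A) * z) * δ₁ ≤
        2 ^ ((k + A + (A + C + 2) * s + (A + C + 1)) * z) * δ₁ := by
      refine mul_le_mul_of_nonneg_right (pow_le_pow_right₀ (by norm_num)
        (Nat.mul_le_mul_right z ?_)) hδ0
      omega
    have e5 : ε (s + 1) = 2 ^ z * (2 ^ ((k + A + (A + C + 2) * s + (A + C + 1)) * z) * δ₁) := by
      rw [hε]
      beta_reduce
      rw [show (k + A + (A + C + 2) * (s + 1)) * z =
        z + (k + A + (A + C + 2) * s + (A + C + 1)) * z by ring, pow_add]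
      ring
    have e6 : 0 ≤ 2 ^ ((k + A + (A + C + 2) * s + (A + C + 1)) * z) * δ₁ := by positivity
    rw [mul_add, e1, e5]
    nlinarith [e2.trans e3.le]
  have hdn : ∀ s, Pb q (fun ω => E ω ∧ ¬ ∀ (m : Fin n) (a : ℕ), r ≤ a + 1 → K + 1 ≤ a + s →
      |f (κ ω) m a| ≤ ε s) ≤ ((s * n : ℕ) : ℝ) * ϖ := by
    intro s
    induction s with
    | zero =>
      rw [Nat.zero_mul, Nat.cast_zero, zero_mul]
      unfold Pb
      refine (Finset.sum_eq_zero fun ω _ => ?_).le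
      rw [if_neg]
      rintro ⟨h1, h2⟩
      apply h2
      intro m a _ ha
      have g1 := (hkey (κ ω) ω h1 rfl).1
      have dG : (Gs (κ ω)).totalDegree ≤ K := by
        rw [g1]
        exact (hpol ω h1).1
      have d1 := ((Pool.AF21.drv (n + 1) (Gs (κ ω))).2.1 K m.succ dG).2
      have d2 : (aeval (lnp (es (κ ω)) (vs (κ ω))) (pderiv m.succ (Gs (κ ω)))).natDegree ≤ K - 1 :=
        deg_curve (lnp_deg _ _) d1
      rw [hf]
      beta_reduce
      rw [Polynomial.coeff_eq_zero_of_natDegree_lt (by omega), abs_zero]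
      exact hε0 0
    | succ s ih =>
      rcases Nat.lt_or_ge K s with hsK | hsK
      · refine (pb_mono hq fun ω _ hω => ?_).trans (ih.trans ?_)
        · refine ⟨hω.1, fun h1 => hω.2 fun m a h2 h3 => ?_⟩
          exact (h1 m a h2 (by omega)).trans (hεm s)
        · refine mul_le_mul_of_nonneg_right ?_ hϖ
          exact_mod_cast Nat.mul_le_mul_right n (Nat.le_succ s)
      -- the pieces
      obtain ⟨B, hB⟩ : ∃ B : Fin n → Ω → Prop, B = fun m₀ ω => E ω ∧ (∀ (m : Fin n) (a : ℕ),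
        r ≤ a + 1 → K + 1 ≤ a + s → |f (κ ω) m a| ≤ ε s) ∧ r ≤ K - s + 1 ∧
          ε (s + 1) < |f (κ ω) m₀ (K - s)| ∧
          ∀ m, |f (κ ω) m (K - s)| ≤ |f (κ ω) m₀ (K - s)| := ⟨_, rfl⟩
      have hBle : ∀ m₀, Pb q (B m₀) ≤ ϖ := by
        intro m₀
        obtain ⟨ka, hka⟩ : ∃ ka : Γ → Fin n → ℝ, ka = fun x m => if m = m₀ then 1 else
          if |f x m (K - s)| ≤ |f x m₀ (K - s)| then f x m (K - s) / f x m₀ (K - s) else 0 :=
          ⟨_, rfl⟩
        refine hns m₀ ka (fun x => ∑ m, ka x m * vs x m) (fun x => by rw [hka]; exact if_pos rfl) ?_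
          (B m₀) (fun ω hω => by rw [hB] at hω; exact hω.1) fun ω hω => ?_
        · intro x m
          rw [hka]
          beta_reduce
          split_ifs with h1 h2
          · rw [abs_one]
          · rw [abs_div]
            exact div_le_one_of_le₀ h2 (abs_nonneg _)
          · rw [abs_zero]
            exact zero_le_one
        · rw [hB] at hω
          obtain ⟨w1, w2, w3, w4, w5⟩ := hω
          have hf0 : 0 < |f (κ ω) m₀ (K - s)| := lt_of_le_of_lt (hε0 (s + 1)) w4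
          have hf1 : f (κ ω) m₀ (K - s) ≠ 0 := abs_pos.1 hf0
          have hka1 : ∀ m, ka (κ ω) m = f (κ ω) m (K - s) / f (κ ω) m₀ (K - s) := by
            intro m
            rw [hka]
            beta_reduce
            split_ifs with h1 h2
            · rw [h1, div_self hf1]
            · rfl
            · exact absurd (w5 m) h2
          have t1 := (htw ω w1).1 (K - s) w3
          have e1 : (∑ m, ka (κ ω) m * v ω m) - ∑ m, ka (κ ω) m * vs (κ ω) m =
              (∑ m, f (κ ω) m (K - s) * (v ω m - vs (κ ω) m)) / f (κ ω) m₀ (K - s) := by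
            rw [← Finset.sum_sub_distrib, Finset.sum_div]
            refine Finset.sum_congr rfl fun m _ => ?_
            rw [hka1]
            ring
          rw [e1, abs_div, div_le_iff₀ hf0]
          have e2 : |∑ m, f (κ ω) m (K - s) * (v ω m - vs (κ ω) m)| ≤
              δ₁ + n * (ε s * (2 ^ (C * z) / 2 ^ (k * z))) := by
            have e3 : ∑ m, f (κ ω) m (K - s) * (v ω m - vs (κ ω) m) =
                (∑ m : Fin n, (f (κ ω) m (K - s + 1) * (e ω m - es (κ ω) m) +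
                  f (κ ω) m (K - s) * (v ω m - vs (κ ω) m))) -
                ∑ m : Fin n, f (κ ω) m (K - s + 1) * (e ω m - es (κ ω) m) := by
              rw [Finset.sum_add_distrib]
              ring
            rw [e3]
            refine (abs_sub _ _).trans (add_le_add t1 ?_)
            refine (Finset.abs_sum_le_sum_abs _ _).trans ?_
            have e4 : ∀ m ∈ (univ : Finset (Fin n)),
                |f (κ ω) m (K - s + 1) * (e ω m - es (κ ω) m)| ≤
                  ε s * (2 ^ (C * z) / 2 ^ (k * z)) := by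
              intro m _
              rw [abs_mul]
              exact mul_le_mul (w2 m _ (by omega) (by omega))
                ((hkey (κ ω) ω w1 rfl).2.2.1 m).1 (abs_nonneg _) (hε0 s)
            refine (Finset.sum_le_card_nsmul _ _ _ e4).trans ?_
            rw [Finset.card_univ, Fintype.card_fin, nsmul_eq_mul]
          have e5 := hεr s
          have e6 : δ₁ + n * (ε s * (2 ^ (C * z) / 2 ^ (k * z))) ≤
              1 / 2 ^ ((k + A) * z) * ε (s + 1) := by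
            rw [one_div_mul_eq_div, le_div_iff₀ (by positivity)]
            linarith
          refine e2.trans (e6.trans ?_)
          exact mul_le_mul_of_nonneg_left w4.le (by positivity)
      have hcov : Pb q (fun ω => E ω ∧ ¬ ∀ (m : Fin n) (a : ℕ), r ≤ a + 1 → K + 1 ≤ a + (s + 1) →
          |f (κ ω) m a| ≤ ε (s + 1)) ≤ ∑ o : Option (Fin n), Pb q (fun ω =>
            match o with
            | none => E ω ∧ ¬ ∀ (m : Fin n) (a : ℕ), r ≤ a + 1 → K + 1 ≤ a + s →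
                |f (κ ω) m a| ≤ ε s
            | some m₀ => B m₀ ω) := by
        refine pb_sum hq univ fun ω _ hω => ?_
        by_cases h1 : ∀ (m : Fin n) (a : ℕ), r ≤ a + 1 → K + 1 ≤ a + s → |f (κ ω) m a| ≤ ε s
        · obtain ⟨h2, h3⟩ := hω
          push Not at h3
          obtain ⟨m, a, a1, a2, a3⟩ := h3
          have ha : a = K - s := by
            by_contra hcon
            have := h1 m a a1 (by omega)
            have := hεm s
            linarith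
          obtain ⟨m₀, _, hm₀⟩ := Finset.exists_max_image univ (fun m => |f (κ ω) m (K - s)|)
            ⟨m, Finset.mem_univ m⟩
          refine ⟨some m₀, Finset.mem_univ _, ?_⟩
          show B m₀ ω
          rw [hB]
          refine ⟨h2, h1, by omega, ?_, fun m' => hm₀ m' (Finset.mem_univ _)⟩
          rw [ha] at a3
          exact lt_of_lt_of_le a3 (hm₀ m (Finset.mem_univ _))
        · exact ⟨none, Finset.mem_univ _, hω.1, h1⟩
      refine hcov.trans ?_
      rw [Fintype.sum_option]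
      have e1 : ∑ m₀ : Fin n, Pb q (B m₀) ≤ n * ϖ := by
        refine (Finset.sum_le_card_nsmul _ _ _ fun m₀ _ => hBle m₀).trans ?_
        rw [Finset.card_univ, Fintype.card_fin, nsmul_eq_mul]
      refine (add_le_add ih e1).trans (le_of_eq ?_)
      push_cast
      ring
  -- the end
  refine (pb_mono hq fun ω _ hω => ?_).trans (hdn (K + 1))
  refine ⟨hω.1, fun h1 => hω.2 fun m a ha => ?_⟩
  have h2 := h1 m a ha (by omega)
  have h3 := (htw ω hω.1).2 m a
  have h4 : ε (K + 1) ≤ 1 / 2 ^ ((lam + 1) * z) := by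
    rw [hε]
    beta_reduce
    rw [show k + A + (A + C + 2) * (K + 1) = k + Q by rw [hQ]; ring, hδ₁, mul_add]
    have a1 : (2 : ℝ) ^ ((k + Q) * z) * (2 * (1 / 2 ^ (Λ * z))) ≤ 1 / 2 ^ ((lam + 2) * z) := by
      calc (2 : ℝ) ^ ((k + Q) * z) * (2 * (1 / 2 ^ (Λ * z)))
          ≤ 2 ^ ((k + Q) * z) * (2 ^ z * (1 / 2 ^ (Λ * z))) :=
            mul_le_mul_of_nonneg_left (mul_le_mul_of_nonneg_right h2z (by positivity))
              (by positivity)
        _ = 2 ^ ((k + Q + 1) * z) / 2 ^ (Λ * z) := by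
            rw [show (k + Q + 1) * z = (k + Q) * z + z by ring, pow_add]
            ring
        _ ≤ _ := pow_div_le (by omega)
    have a2 : (2 : ℝ) ^ ((k + Q) * z) * (2 ^ (Q' * z) / 2 ^ (2 * k * z)) ≤
        1 / 2 ^ ((lam + 2) * z) := by
      calc (2 : ℝ) ^ ((k + Q) * z) * (2 ^ (Q' * z) / 2 ^ (2 * k * z))
          = 2 ^ ((k + Q + Q') * z) / 2 ^ (2 * k * z) := by
            rw [show (k + Q + Q') * z = (k + Q) * z + Q' * z by ring, pow_add]
            ring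
        _ ≤ _ := pow_div_le (by omega)
    have a3 : (1 : ℝ) / 2 ^ ((lam + 2) * z) + 1 / 2 ^ ((lam + 2) * z) ≤ 1 / 2 ^ ((lam + 1) * z) := by
      rw [← add_div, div_le_div_iff₀ (by positivity) (by positivity),
        show (lam + 2) * z = (lam + 1) * z + z by ring, pow_add]
      nlinarith [show (0 : ℝ) < 2 ^ ((lam + 1) * z) by positivity]
    exact (add_le_add a1 a2).trans a3
  have h5 : (2 : ℝ) ^ (Q' * z) / 2 ^ (k * z) ≤ 1 / 2 ^ ((lam + 1) * z) := pow_div_le (by omega)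
  have h6 : (1 : ℝ) / 2 ^ ((lam + 1) * z) + 1 / 2 ^ ((lam + 1) * z) ≤ 1 / 2 ^ (lam * z) := by
    rw [← add_div, div_le_div_iff₀ (by positivity) (by positivity),
      show (lam + 1) * z = lam * z + z by ring, pow_add]
    nlinarith [show (0 : ℝ) < 2 ^ (lam * z) by positivity]
  have h7 : ∀ x y B D : ℝ, |x - y| ≤ B → |y| ≤ D → |x| ≤ D + B := by
    intro x y B D b1 b2
    rw [abs_le] at *
    constructor <;> linarith [b1.1, b1.2, b2.1, b2.2]
  exact (h7 _ _ _ _ h3 h2).trans ((add_le_add h4 h5).trans h6)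

end Pool.AF37
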