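import Pool.Agent.H37.AF.Flt
import Pool.Agent.H14.P4.Dep

/-!
# (Bnd): the closed labels are near to affine functions
-/

set_option autoImplicit false

namespace Pool.AF37

open Finset Real MvPolynomial
open Pool.Agent.H49.Ent Pool.Agent.H32.Dense Pool.STK Pool.STAT Pool.MIC.Frm Pool.MIC7 Pool.FRM
open Pool.P4
open Pool.BFL (Pb Pl)

theorem two_le_exp (c z : ℕ) : (2 : ℝ) ^ (c * z) ≤ exp ((c : ℝ) * z) := by
  have h1 : (2 : ℝ) ≤ exp 1 := by
    have := Real.add_one_le_exp (1 : ℝ)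
    linarith
  calc (2 : ℝ) ^ (c * z) ≤ exp 1 ^ (c * z) := pow_le_pow_left₀ (by norm_num) h1 _
    _ = exp ((c : ℝ) * z) := by
        rw [← Real.exp_nat_mul]
        congr 1
        push_cast
        ring

theorem real_le_two {x : ℝ} {b z : ℕ} (h : x ≤ b) (hz : 1 ≤ z) : x ≤ 2 ^ (b * z) := by
  have e5 : (b : ℝ) ≤ 2 ^ b := by exact_mod_cast (Nat.lt_two_pow_self (n := b)).le
  have e6 : (2 : ℝ) ^ b ≤ 2 ^ (b * z) :=
    pow_le_pow_right₀ (by norm_num) (Nat.le_mul_of_pos_right b hz)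
  linarith

/-- The matrix of two near frames. -/
theorem wk_two (p K : ℕ) (C : ℝ) (hC : 0 ≤ C) : ∃ cw : ℕ, ∀ (g : ℕ → ℕ) (z : ℕ)
    (Φ P P' : ℕ → PN), 1 ≤ z → TriN Φ → TriN P → TriN P' → (∀ m, (Φ m).totalDegree ≤ K) →
    (∀ m, (P m).totalDegree ≤ 1) → (∀ m, (P' m).totalDegree ≤ 1) →
    (∀ m ≤ p, nrm g (1 / 2) (chr P (Φ m - P m)) ≤ exp (C * z) / 2 ^ g m) →
    (∀ m ≤ p, nrm g (1 / 2) (chr P' (Φ m - P' m)) ≤ exp (C * z) / 2 ^ g m) →
    ∀ m ≤ p, ∀ k, |Wk P P' g m k| ≤ 2 ^ (cw * z) := by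
  obtain ⟨Cw, Nw, hCw, hsn⟩ := Pool.P4L.sys_near (max K 1) (p + 1)
  obtain ⟨a, ha⟩ := exists_nat_ge (2 * C)
  obtain ⟨b, hb⟩ := exists_nat_ge Cw
  refine ⟨b + a * Nw, ?_⟩
  intro g z Φ P P' hz tΦ tP tP' dΦ dP dP' h1 h2 m hm k
  have e0 : (1 : ℝ) ≤ exp (C * z) := Real.one_le_exp (by positivity)
  have e1 := hsn g Φ P P' (exp (C * z)) tΦ tP tP' (fun l => (dΦ l).trans (le_max_left _ _))
    (fun l => (dP l).trans (le_max_right _ _)) (fun l => (dP' l).trans (le_max_right _ _)) e0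
    (fun l hl => h1 l (by omega)) (fun l hl => h2 l (by omega)) m (by omega)
  have e2 : Cw * exp (C * z) ^ Nw ≤ 2 ^ ((b + a * Nw) * z) := by
    rw [add_mul, pow_add]
    have e7 : exp (C * z) ^ Nw ≤ 2 ^ (a * Nw * z) := by
      calc exp (C * z) ^ Nw ≤ (2 ^ (a * z)) ^ Nw :=
            pow_le_pow_left₀ (by positivity) (exp_two ha z) _
        _ = 2 ^ (a * Nw * z) := by
            rw [← pow_mul]
            congr 1
            ring
    exact mul_le_mul (real_le_two hb hz) e7 (by positivity) (by positivity)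
  exact wk_le (one_le_pow₀ (by norm_num)) (e1.trans (div_le_div_of_nonneg_right e2 (by positivity)))

/-- The natural letter, as a polynomial. -/
noncomputable def ltr (g : ℕ → ℕ) (P : ℕ → PN) (k : ℕ) : PN := C (2 ^ g k) * (X k - P k)

theorem ltr_eval (g : ℕ → ℕ) (P : ℕ → PN) (b : ℕ → ℝ) (k : ℕ) :
    eval b (ltr g P k) = nat g P b k := by
  unfold ltr nat
  rw [map_mul, eval_C, map_sub, eval_X]

theorem ltr_deg {g : ℕ → ℕ} {P : ℕ → PN} (dP : ∀ m, (P m).totalDegree ≤ 1) (k : ℕ) :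
    (ltr g P k).totalDegree ≤ 1 := by
  unfold ltr
  refine (totalDegree_mul _ _).trans ?_
  rw [totalDegree_C, zero_add]
  refine (totalDegree_sub _ _).trans (max_le ?_ (dP k))
  rw [totalDegree_X]

theorem ltr_vars {g : ℕ → ℕ} {P : ℕ → PN} (hP : TriN P) (k : ℕ) :
    (ltr g P k).vars ⊆ range (k + 1) := by
  classical
  unfold ltr
  refine (vars_mul _ _).trans (Finset.union_subset ?_ ?_)
  · rw [vars_C]
    exact Finset.empty_subset _
  · refine (AdxRow.vars_sub_le (m := k + 1) ?_ ((hP k).trans (Finset.range_mono (by omega))))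
    rw [vars_X, Finset.singleton_subset_iff, mem_range]
    exact Nat.lt_succ_self k

/-- **A label whose part of degree `≥ 2` is small is near to an affine function.** -/
theorem afl_of (n K : ℕ) (C₀ : ℝ) (hC : 0 ≤ C₀) : ∃ B₀ : ℕ, ∀ (D : NDat2) (z i j p b : ℕ)
    (P : ℕ → PN) (ω : D.Ω), 1 ≤ z → p ≤ n → TriN P → (∀ m, (P m).totalDegree ≤ 1) →
    TriN (D.Φ i j ω) → (∀ m, (D.Φ i j ω m).totalDegree ≤ K) →
    (∀ m ≤ p, nrm (D.g i j) (1 / 2) (chr P (D.Φ i j ω m - P m)) ≤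
      exp (C₀ * z) / 2 ^ D.g i j m) →
    l1 (hi (Fl (D.g i j) P p (p + 1) (D.Φ i j ω (p + 1)))) ≤ 2 ^ (b * z) →
    AfL D z i j (p + 1) ((B₀ + b : ℕ) : ℝ) ω := by
  classical
  obtain ⟨N, hN⟩ : ∃ N, N = max K 1 * 2 ^ n := ⟨_, rfl⟩
  obtain ⟨a, ha⟩ := exists_nat_ge (2 * C₀)
  refine ⟨(1 + a) * (N + 1) ^ n * K, ?_⟩
  intro D z i j p b P ω hz hp hP dP hΦ dΦ hnear hl1
  obtain ⟨G, hG⟩ : ∃ G, G = Fl (D.g i j) P p (p + 1) (D.Φ i j ω (p + 1)) := ⟨_, rfl⟩
  rw [← hG] at hl1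
  refine ⟨C (1 / 2 ^ D.g i j (p + 1)) * bind₁ (ltr (D.g i j) P) (rename Fin.val (lo G)), ?_, ?_, ?_⟩
  · refine (vars_mul _ _).trans (Finset.union_subset ?_ ?_)
    · rw [vars_C]
      exact Finset.empty_subset _
    · refine (vars_bind₁ _ _).trans ?_
      intro k hk
      obtain ⟨i', hi', hk2⟩ := Finset.mem_biUnion.1 hk
      have h1 := vars_rename _ _ hi'
      obtain ⟨i'', _, h2⟩ := Finset.mem_image.1 h1
      have h3 := mem_range.1 (ltr_vars hP i' hk2)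
      have h4 := i''.2
      rw [mem_range]
      omega
  · refine (totalDegree_mul _ _).trans ?_
    rw [totalDegree_C, zero_add]
    refine (Dgb.deg_bind (B := 1) fun k _ => ltr_deg dP k).trans ?_
    rw [mul_one]
    exact (totalDegree_rename_le _ _).trans (lo_deg G)
  · intro b' hb'
    have e1 : eval b' (C (1 / 2 ^ D.g i j (p + 1)) *
        bind₁ (ltr (D.g i j) P) (rename Fin.val (lo G))) = 1 / 2 ^ D.g i j (p + 1) *
          eval (fun i' : Fin (p + 1) => nat (D.g i j) P b' i') (lo G) := by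
      rw [map_mul, eval_C, AdxRow.evl_bnd, eval_rename]
      have e0 : ((fun k => (eval b') (ltr (D.g i j) P k)) ∘ Fin.val) =
          fun i' : Fin (p + 1) => nat (D.g i j) P b' i' := by
        funext i'
        exact ltr_eval _ _ _ _
      rw [e0]
    have e2 : eval b' (D.Φ i j ω (p + 1)) = 1 / 2 ^ D.g i j (p + 1) *
        eval (fun i' : Fin (p + 1) => nat (D.g i j) P b' i') G := by
      rw [hG, fl_eval hP (hΦ (p + 1))]
      field_simp
    rw [e1, e2, ← mul_sub, ← map_sub]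
    have e3 : G - lo G = hi G := by
      unfold lo
      rw [sub_sub_cancel]
    rw [e3, abs_mul, abs_of_pos (by positivity : (0 : ℝ) < 1 / 2 ^ D.g i j (p + 1)),
      one_div_mul_eq_div]
    refine div_le_div_of_nonneg_right ?_ (by positivity)
    have dG : G.totalDegree ≤ K := by
      rw [hG]
      exact fl_deg hP dP (hΦ (p + 1)) (dΦ (p + 1))
    have e5 : (1 : ℝ) ≤ exp (C₀ * z) := Real.one_le_exp (by positivity)
    have hNb : ∀ m ≤ p, (chr P (D.Φ i j ω m - P m)).totalDegree ≤ N := by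
      intro m hm
      refine (chr_aff hP dP (N := max K 1) ((totalDegree_sub _ _).trans
        (max_le_max (dΦ m) (dP m)))).trans ?_
      rw [hN]
      exact Nat.le_mul_of_pos_right _ (by positivity)
    have hT1 : (1 : ℝ) ≤ 2 ^ ((1 + a) * (N + 1) ^ n * z) := one_le_pow₀ (by norm_num)
    have hT : ∀ i' : Fin (p + 1), |nat (D.g i j) P b' i'| ≤ 2 ^ ((1 + a) * (N + 1) ^ n * z) := by
      intro i'
      have h1 := nat_near p N e5 le_rfl hΦ hP hNb hnear (b := b')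
        (fun m hm => hb' m (by omega)) i' (by have := i'.2; omega)
      refine h1.trans ?_
      have h2 : 2 * exp (C₀ * z) * 1 ≤ 2 ^ ((1 + a) * z) := by
        rw [mul_one, add_mul, pow_add]
        refine mul_le_mul ?_ (exp_two ha z) (Real.exp_pos _).le (by positivity)
        rw [one_mul]
        exact le_self_pow₀ (by norm_num) (by omega)
      have h3 : (1 : ℝ) ≤ 2 * exp (C₀ * z) * 1 := by nlinarith
      calc (2 * exp (C₀ * z) * 1) ^ ((N + 1) ^ (i' : ℕ))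
          ≤ (2 * exp (C₀ * z) * 1) ^ ((N + 1) ^ n) :=
            pow_le_pow_right₀ h3 (Nat.pow_le_pow_right (by omega) (by have := i'.2; omega))
        _ ≤ (2 ^ ((1 + a) * z)) ^ ((N + 1) ^ n) := pow_le_pow_left₀ (by positivity) h2 _
        _ = 2 ^ ((1 + a) * (N + 1) ^ n * z) := by
            rw [← pow_mul]
            congr 1
            ring
    calc |eval (fun i' : Fin (p + 1) => nat (D.g i j) P b' i') (hi G)|
        ≤ (2 ^ ((1 + a) * (N + 1) ^ n * z)) ^ K * l1 (hi G) := eval_le_l1 (hi_deg dG) hT1 hT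
      _ ≤ (2 ^ ((1 + a) * (N + 1) ^ n * z)) ^ K * 2 ^ (b * z) :=
          mul_le_mul_of_nonneg_left hl1 (by positivity)
      _ = 2 ^ (((1 + a) * (N + 1) ^ n * K + b) * z) := by
          rw [← pow_mul, ← pow_add]
          congr 1
          ring
      _ ≤ exp ((((1 + a) * (N + 1) ^ n * K + b : ℕ) : ℝ) * z) := two_le_exp _ _

section

variable {D : NDat2} {n K J a₀ w₀ z M M' i j p : ℕ} {lam gam : ℕ → ℝ} {κ C₁ C : ℝ}
  {q : D.Ω → ℝ}

/-- The block of the window. -/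
theorem blk (hO : D.Ok2 n K J a₀ w₀ z M lam gam κ C₁ q) (hi : i ≤ M) (hj : j ≤ M) {ω ω' : D.Ω}
    (h1 : 0 < q ω) (h2 : 0 < q ω') (e : D.c i j ω = D.c i j ω') :
    t0 D J (w₀ + j * z) ω ≤ D.X ω' 0 ∧ D.X ω' 0 ≤ t0 D J (w₀ + j * z) ω + 1 / 2 ^ (w₀ + j * z) := by
  have hw : w₀ + j * z ≤ J := by
    have h3 := hO.thin
    have h4 := hO.top
    have h5 : j * z ≤ (M + 1) * z := Nat.mul_le_mul_right z (by omega)
    omega
  have h3 := hO.c_T i hi j hj ω ω' h1 h2 e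
  rw [Pool.P4L.t0_congr h3]
  exact Pool.P4.t0_near D hw (hO.X_zero ω')

/-- **The base frames.** -/
theorem base (hO : D.Ok2 n K J a₀ w₀ z M lam gam κ C₁ q) (hi : i < M') (hj : j < M')
    (hM : M' ≤ M) {E : D.Ω → Prop} (hE : ∀ ω, E ω → 0 < q ω ∧ FraC D p 1 M' z C ω) :
    ∃ (P₀ : D.Γ → ℕ → PN) (τ : D.Γ → ℝ), (∀ x, TriN (P₀ x)) ∧
      (∀ x m, (P₀ x m).totalDegree ≤ 1) ∧ ∀ ω, E ω →
        (∀ m ≤ p, nrm (D.g i j) (1 / 2) (chr (P₀ (D.c i j ω))
          (D.Φ i j ω m - P₀ (D.c i j ω) m)) ≤ exp (C * z) / 2 ^ D.g i j m) ∧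
        (∀ x, nat (D.g i j) (P₀ (D.c i j ω)) (pp D x (τ (D.c i j ω))) 0 = 0) ∧
        |D.X ω 0 - τ (D.c i j ω)| ≤ 1 / 2 ^ (w₀ + j * z) := by
  classical
  have key : ∀ y : D.Γ, ∃ (P : ℕ → PN) (τ : ℝ), TriN P ∧ (∀ m, (P m).totalDegree ≤ 1) ∧
      ∀ ω, E ω → D.c i j ω = y →
        (∀ m ≤ p, nrm (D.g i j) (1 / 2) (chr P (D.Φ i j ω m - P m)) ≤
          exp (C * z) / 2 ^ D.g i j m) ∧
        (∀ x, nat (D.g i j) P (pp D x τ) 0 = 0) ∧ |D.X ω 0 - τ| ≤ 1 / 2 ^ (w₀ + j * z) := by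
    intro y
    by_cases h : ∃ ω₀, E ω₀ ∧ D.c i j ω₀ = y
    · obtain ⟨ω₀, h1, h2⟩ := h
      obtain ⟨h3, P, t, d, th, hn⟩ := hE ω₀ h1
      refine ⟨P, D.X ω₀ 0, t, d, fun ω hω e => ?_⟩
      have e1 : D.c i j ω = D.c i j ω₀ := e.trans h2.symm
      have e2 : D.Φ i j ω = D.Φ i j ω₀ := by
        unfold NDat2.Φ
        rw [e1]
      refine ⟨fun m hm => ?_, fun x => ?_, ?_⟩
      · rw [e2]
        exact hn i hi j hj m hm
      · have h4 : eval (pp D x (D.X ω₀ 0)) (P 0) = eval (D.X ω₀) (P 0) :=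
          Pool.SYS35.eval_congr (t 0) fun i hi => absurd hi (Nat.not_lt_zero i)
        unfold nat
        rw [h4, th 0 (Nat.zero_le _)]
        unfold pp
        rw [if_pos rfl, sub_self, mul_zero]
      · obtain ⟨a1, a2⟩ := blk hO (hi.le.trans hM) (hj.le.trans hM) (hE ω hω).1 (hE ω hω).1 rfl
        obtain ⟨b1, b2⟩ := blk hO (hi.le.trans hM) (hj.le.trans hM) (hE ω hω).1 h3 e1
        rw [abs_le]
        constructor <;> linarith
    · refine ⟨fun _ => 0, 0, fun i => by simp, fun m => by simp, fun ω hω e => ?_⟩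
      exact absurd ⟨ω, hω, e⟩ h
  choose P₀ τ h1 h2 h3 using key
  exact ⟨P₀, τ, h1, h2, fun ω hω => h3 _ ω hω rfl⟩

end

/-- The natural slope, from two times. -/
theorem vn_two {D : NDat2} {P : ℕ → PN} {g : ℕ → ℕ} {x : D.Λ} (hS : D.Strt) (hP : TriN P)
    (dP : ∀ m, (P m).totalDegree ≤ 1) (t : ℝ) (m : ℕ) :
    vn D g P x m = nat g P (pp D x (t + 1 / 2 ^ g 0)) m - nat g P (pp D x t) m := by
  rw [nat_two hS hP dP]
  field_simp
  ring

/-- **(Bnd)**: the closed labels of the coordinate `p + 1` are near to affine functions, if the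
samples have affine frames of the coordinates `≤ p`. -/
theorem bnd (hA : AffS) (hch : ChtAff) (n p K : ℕ) (C₁ C Cs : ℝ) (hn : 1 ≤ n) (hC : 0 ≤ C) :
    ∃ (B : ℝ) (U k₀ N z₀ : ℕ), 0 ≤ B ∧
    ∀ (D : NDat2) (J a₀ w₀ z M M' i j : ℕ) (lam gam : ℕ → ℝ) (κ ϖ : ℝ) (q : D.Ω → ℝ)
      (E : D.Ω → Prop), z₀ ≤ z → D.Ok2 n K J a₀ w₀ z M lam gam κ C₁ q →
      (∀ l, 1 ≤ l → l ≤ n → lam l = 1) → D.Strt → D.Slp n J z M q → 0 ≤ ϖ →
      D.NoSl n J w₀ z M 1 Cs ϖ q → p < n → i + k₀ < M' → j < M' → M' ≤ M →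
      i + k₀ + 2 * U ≤ M → j + 2 * U ≤ M →
      (∀ ω, E ω → 0 < q ω ∧ PthC D n w₀ z M 1 ω ∧ FraC D p 1 M' z C ω) →
      Pb q (fun ω => E ω ∧ ¬ AfL D z i j (p + 1) B ω) ≤ N * ϖ := by
  classical
  obtain ⟨c, t, z₁, ht1, hns⟩ := nslp hch n p K C₁ C hn hC
  obtain ⟨cN, hcN1, hwin⟩ := win_nat n K C hC
  obtain ⟨cw, hwk⟩ := wk_two p K C hC
  obtain ⟨c₁, hc₁⟩ := exists_nat_ge (2 * C₁)
  obtain ⟨U, hU⟩ := exists_nat_ge (Cs * ((t + 1 : ℕ) : ℝ))
  obtain ⟨Cf, hCf, hflat⟩ := fl_flat K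
  obtain ⟨f, hf⟩ := exists_nat_ge Cf
  obtain ⟨B₀, hafl⟩ := afl_of n K C hC
  obtain ⟨Ca, hCa⟩ : ∃ Ca, Ca = p + 1 + cw + c₁ + cN + 1 := ⟨_, rfl⟩
  obtain ⟨k₀, Λ, N, z₂, haff⟩ := hA p K (U + c) Ca 0 1
  refine ⟨((B₀ + (Λ + f + 2) : ℕ) : ℝ), U, k₀, N * p, max (max z₁ z₂) 1, by positivity, ?_⟩
  intro D J a₀ w₀ z M M' i j lam gam κ ϖ q E hz hO hlam hS hSl hϖ hNS hpn hik hj hM hU1 hU2 hE
  have hz1 : 1 ≤ z := by omega
  have hzr : (0 : ℝ) ≤ z := Nat.cast_nonneg z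
  obtain ⟨E₂, hE₂⟩ : ∃ E₂ : D.Ω → Prop, E₂ = fun ω =>
    E ω ∧ ¬ AfL D z i j (p + 1) ((B₀ + (Λ + f + 2) : ℕ) : ℝ) ω := ⟨_, rfl⟩
  have hE₂E : ∀ ω, E₂ ω → E ω := fun ω hω => by
    rw [hE₂] at hω
    exact hω.1
  obtain ⟨P₀, τ, tP₀, dP₀, hbase⟩ := base (C := C) (i := i) (j := j) (p := p) hO (by omega) hj hM
    (E := E₂) (fun ω hω => ⟨(hE ω (hE₂E ω hω)).1, (hE ω (hE₂E ω hω)).2.2⟩)
  obtain ⟨g, hg⟩ : ∃ g, g = D.g i j := ⟨_, rfl⟩
  have hg0 : g 0 = w₀ + j * z := by rw [hg, hO.g_zero]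
  -- letters of the lines
  obtain ⟨e, he⟩ : ∃ e : D.Ω → Fin p → ℝ, e = fun ω (m : Fin p) =>
    nat g (P₀ (D.c i j ω)) (pp D (D.ln ω) (τ (D.c i j ω))) ((m : ℕ) + 1) := ⟨_, rfl⟩
  obtain ⟨v, hv⟩ : ∃ v : D.Ω → Fin p → ℝ, v = fun ω (m : Fin p) =>
    vn D g (P₀ (D.c i j ω)) (D.ln ω) ((m : ℕ) + 1) := ⟨_, rfl⟩
  -- the polynomial
  obtain ⟨H, hH⟩ : ∃ H : D.Ω → Pl (p + 1), H = fun ω =>
    hi (Fl g (P₀ (D.c i j ω)) p (p + 1) (D.Φ i j ω (p + 1))) := ⟨_, rfl⟩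
  obtain ⟨G, hG⟩ : ∃ G : D.Ω → Pl (p + 1), G = fun ω => MvPolynomial.C (1 / l1 (H ω)) * H ω := ⟨_, rfl⟩
  have hHbig : ∀ ω, E₂ ω → 2 ^ ((Λ + f + 2) * z) < l1 (H ω) := by
    intro ω hω
    by_contra hcon
    push Not at hcon
    have h1 := hω
    rw [hE₂] at h1
    refine h1.2 (hafl D z i j p (Λ + f + 2) (P₀ (D.c i j ω)) ω hz1 hpn.le (tP₀ _) (dP₀ _)
      (hO.P_tri i j _) (hO.P_deg i j _) (hbase ω hω).1 ?_)
    rw [hH, hg] at hcon
    exact hcon
  have hw1 : ∀ ω, E₂ ω → ∀ s : ℝ, |s - D.X ω 0| ≤ 1 / 2 ^ (w₀ + j * z) → ∀ m ≤ p,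
      |nat g (P₀ (D.c i j ω)) (pp D (D.ln ω) s) m| ≤ 2 ^ (cN * z) := by
    intro ω hω s hs m hm
    rw [hg]
    exact hwin D w₀ z M i j p (P₀ (D.c i j ω)) ω ω hz1 (by omega) (by omega) hpn.le (tP₀ _) (dP₀ _)
      (hO.P_tri i j _) (hO.P_deg i j _) (hE ω (hE₂E ω hω)).2.1 rfl (hbase ω hω).1 s hs m hm
  -- the ends of the block
  obtain ⟨ta, hta⟩ : ∃ ta : D.Ω → ℝ, ta = fun ω => t0 D J (w₀ + j * z) ω := ⟨_, rfl⟩
  have hblk : ∀ ω ω', E₂ ω → E₂ ω' → D.c i j ω = D.c i j ω' →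
      |ta ω - D.X ω' 0| ≤ 1 / 2 ^ (w₀ + j * z) ∧
        |ta ω + 1 / 2 ^ (w₀ + j * z) - D.X ω' 0| ≤ 1 / 2 ^ (w₀ + j * z) := by
    intro ω ω' h1 h2 h3
    obtain ⟨a1, a2⟩ := blk hO (by omega : i ≤ M) (by omega : j ≤ M) (hE ω (hE₂E ω h1)).1
      (hE ω' (hE₂E ω' h2)).1 h3
    rw [hta]
    constructor <;> rw [abs_le] <;> constructor <;> linarith
  have hvn : ∀ ω, ∀ s : ℝ, ∀ m, vn D g (P₀ (D.c i j ω)) (D.ln ω) m =
      nat g (P₀ (D.c i j ω)) (pp D (D.ln ω) (s + 1 / 2 ^ (w₀ + j * z))) m -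
        nat g (P₀ (D.c i j ω)) (pp D (D.ln ω) s) m := by
    intro ω s m
    rw [← hg0]
    exact vn_two hS (tP₀ _) (dP₀ _) s m
  have key := haff z 2 (by omega) D.Ω q (fun _ => D.Γ) (fun k => D.c (i + k) j) e v G E₂ (p * ϖ)
    hO.isLaw (by positivity) (fun ω hω => (hE ω (hE₂E ω hω)).1)
    (fun k hk ω ω' h1 h2 h3 => hO.c_i (i + k) (by omega) j (by omega) ω ω'
      (hE ω (hE₂E ω h1)).1 (hE ω' (hE₂E ω' h2)).1 h3)
    ?_ ?_ ?_ ?_ ?_
  · refine le_trans ?_ (key.trans (le_of_eq ?_))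
    · refine pb_mono hO.isLaw.nonneg fun ω _ hω => ?_
      have hω2 : E₂ ω := by
        rw [hE₂]
        exact hω
      refine ⟨hω2, ?_⟩
      have h1 := hHbig ω hω2
      have h2 : 0 < l1 (H ω) := lt_trans (by positivity) h1
      rw [hG]
      beta_reduce
      rw [l1_smul, abs_of_pos (by positivity), one_div, inv_mul_cancel₀ h2.ne', not_le,
        div_lt_one (by positivity), one_mul]
      exact one_lt_pow₀ (by norm_num) (by omega)
    · push_cast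
      ring
  · -- the letters are natural
    intro ω hω m
    have hm := m.2
    have h0 : (2 : ℝ) ^ (cN * z) ≤ 2 ^ (Ca * z) :=
      pow_le_pow_right₀ (by norm_num) (Nat.mul_le_mul_right z (by omega))
    constructor
    · rw [he]
      exact (hw1 ω hω _ (by rw [abs_sub_comm]; exact (hbase ω hω).2.2) _ (by omega)).trans h0
    · obtain ⟨b1, b2⟩ := hblk ω ω hω hω rfl
      rw [hv]
      beta_reduce
      rw [hvn ω (ta ω)]
      have h1 := hw1 ω hω _ b1 ((m : ℕ) + 1) (by omega)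
      have h2 := hw1 ω hω _ b2 ((m : ℕ) + 1) (by omega)
      calc _ ≤ _ := abs_sub _ _
        _ ≤ 2 ^ (cN * z) + 2 ^ (cN * z) := add_le_add h2 h1
        _ = 2 ^ (cN * z + 1) := by rw [pow_succ]; ring
        _ ≤ 2 ^ (Ca * z) := by
            refine pow_le_pow_right₀ (by norm_num) ?_
            have : (cN + 1) * z ≤ Ca * z := Nat.mul_le_mul_right z (by omega)
            nlinarith
  · -- the lines of a deeper place are near
    intro k hk ω ω' hω hω' hcc m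
    have hm := m.2
    have hq := (hE ω (hE₂E ω hω)).1
    have hq' := (hE ω' (hE₂E ω' hω')).1
    have hc0 : D.c i j ω = D.c i j ω' := c_down hO (by omega) k (by omega) hq hq' hcc
    obtain ⟨P', tP', dP', _, hn'⟩ := (hE ω (hE₂E ω hω)).2.2
    obtain ⟨g', hg'⟩ : ∃ g', g' = D.g (i + k) j := ⟨_, rfl⟩
    have hW := hwk g z (D.Φ i j ω) (P₀ (D.c i j ω)) P' hz1 (hO.P_tri i j _) (tP₀ _) tP'
      (hO.P_deg i j _) (dP₀ _) dP' (by rw [hg]; exact (hbase ω hω).1)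
      (by rw [hg]; exact hn' i (by omega) j hj)
    have hnear : ∀ s : ℝ, |s - D.X ω 0| ≤ 1 / 2 ^ (w₀ + j * z) →
        |s - D.X ω' 0| ≤ 1 / 2 ^ (w₀ + j * z) → ∀ m, 1 ≤ m → m ≤ p →
        |nat g (P₀ (D.c i j ω)) (pp D (D.ln ω) s) m -
          nat g (P₀ (D.c i j ω)) (pp D (D.ln ω') s) m| ≤
          2 ^ ((p + 1 + cw + c₁ + cN) * z) / 2 ^ (k * z) := by
      intro s s1 s2 m m1 mp
      have hR : (chr P' (P' m - P₀ (D.c i j ω) m)).totalDegree ≤ 1 :=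
        chr_aff tP' dP' ((totalDegree_sub _ _).trans (max_le (dP' m) (dP₀ _ m)))
      have h1 := nat_dif (g := g) (g' := g') (tP₀ (D.c i j ω)) tP' m1 mp hR (pp D (D.ln ω) s)
        (pp D (D.ln ω') s)
      have h2 : pp D (D.ln ω) s 0 - pp D (D.ln ω') s 0 = 0 := by
        unfold pp
        rw [if_pos rfl, if_pos rfl, sub_self]
      rw [h2, mul_zero, zero_add] at h1
      rw [h1]
      have h3 : ∀ l ∈ Icc 1 p, |Wk (P₀ (D.c i j ω)) P' g m l * (2 ^ g l / 2 ^ g' l) *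
          (nat g' P' (pp D (D.ln ω) s) l - nat g' P' (pp D (D.ln ω') s) l)| ≤
          2 ^ (cw * z) * (2 ^ (c₁ * z) / 2 ^ (k * z)) * (2 * 2 ^ (cN * z)) := by
        intro l hl
        rw [mem_Icc] at hl
        have b1 := hwin D w₀ z M (i + k) j p P' ω ω hz1 (by omega) (by omega) hpn.le tP' dP'
          (hO.P_tri _ j _) (hO.P_deg _ j _) (hE ω (hE₂E ω hω)).2.1 rfl
          (fun m hm => hn' (i + k) (by omega) j hj m hm) s s1 l hl.2
        have b2 := hwin D w₀ z M (i + k) j p P' ω' ω hz1 (by omega) (by omega) hpn.le tP' dP'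
          (hO.P_tri _ j _) (hO.P_deg _ j _) (hE ω' (hE₂E ω' hω')).2.1 hcc
          (fun m hm => hn' (i + k) (by omega) j hj m hm) s s2 l hl.2
        have h4 := (Pool.TC37F.lev_two hO hlam hc₁ (ia := i) (ib := i + k) (j := j) (by omega)
          (by omega) (by omega) hl.1 (hl.2.trans hpn.le)).1
        rw [← hg, ← hg', Nat.add_sub_cancel_left] at h4
        rw [← hg'] at b1 b2
        have h5 : (2 : ℝ) ^ g l / 2 ^ g' l ≤ 2 ^ (c₁ * z) / 2 ^ (k * z) := by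
          rw [div_le_div_iff₀ (by positivity) (by positivity), ← pow_add, ← pow_add]
          exact pow_le_pow_right₀ (by norm_num) (by omega)
        rw [abs_mul, abs_mul, abs_of_pos (by positivity : (0 : ℝ) < 2 ^ g l / 2 ^ g' l)]
        refine mul_le_mul (mul_le_mul (hW m mp l) h5 (by positivity) (by positivity)) ?_
          (abs_nonneg _) (by positivity)
        calc _ ≤ _ := abs_sub _ _
          _ ≤ 2 ^ (cN * z) + 2 ^ (cN * z) := add_le_add b1 b2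
          _ = 2 * 2 ^ (cN * z) := by ring
      refine (Finset.abs_sum_le_sum_abs _ _).trans ((Finset.sum_le_sum h3).trans ?_)
      rw [Finset.sum_const, nsmul_eq_mul, Nat.card_Icc, Nat.add_sub_cancel]
      have h6 : (p : ℝ) * 2 ≤ 2 ^ ((p + 1) * z) := by
        have e1 : (p : ℝ) ≤ 2 ^ p := by exact_mod_cast (Nat.lt_two_pow_self (n := p)).le
        have e2 : (2 : ℝ) ^ (p + 1) ≤ 2 ^ ((p + 1) * z) :=
          pow_le_pow_right₀ (by norm_num) (Nat.le_mul_of_pos_right _ hz1)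
        rw [pow_succ] at e2
        linarith
      have h7 : (2 : ℝ) ^ ((p + 1 + cw + c₁ + cN) * z) =
          2 ^ ((p + 1) * z) * 2 ^ (cw * z) * 2 ^ (c₁ * z) * 2 ^ (cN * z) := by
        rw [← pow_add, ← pow_add, ← pow_add]
        congr 1
        ring
      rw [h7]
      calc (p : ℝ) * (2 ^ (cw * z) * (2 ^ (c₁ * z) / 2 ^ (k * z)) * (2 * 2 ^ (cN * z)))
          = ((p : ℝ) * 2) * (2 ^ (cw * z) * 2 ^ (c₁ * z) * 2 ^ (cN * z) / 2 ^ (k * z)) := by ring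
        _ ≤ 2 ^ ((p + 1) * z) * (2 ^ (cw * z) * 2 ^ (c₁ * z) * 2 ^ (cN * z) / 2 ^ (k * z)) :=
            mul_le_mul_of_nonneg_right h6 (by positivity)
        _ = _ := by ring
    have hCa2 : (2 : ℝ) ^ ((p + 1 + cw + c₁ + cN) * z) + 2 ^ ((p + 1 + cw + c₁ + cN) * z) ≤
        2 ^ (Ca * z) := by
      calc (2 : ℝ) ^ ((p + 1 + cw + c₁ + cN) * z) + 2 ^ ((p + 1 + cw + c₁ + cN) * z)
          = 2 ^ ((p + 1 + cw + c₁ + cN) * z + 1) := by rw [pow_succ]; ring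
        _ ≤ 2 ^ (Ca * z) := by
            refine pow_le_pow_right₀ (by norm_num) ?_
            rw [hCa]
            nlinarith
    have hpos : (0 : ℝ) < 2 ^ ((p + 1 + cw + c₁ + cN) * z) := by positivity
    constructor
    · rw [he]
      beta_reduce
      rw [← hc0]
      refine (hnear _ (by rw [abs_sub_comm]; exact (hbase ω hω).2.2)
        (by rw [abs_sub_comm, hc0]; exact (hbase ω' hω').2.2) _ (by omega) (by omega)).trans
        (div_le_div_of_nonneg_right (by linarith) (by positivity))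
    · obtain ⟨b1, b2⟩ := hblk ω ω hω hω rfl
      obtain ⟨b1', b2'⟩ := hblk ω ω' hω hω' hc0
      rw [hv]
      beta_reduce
      rw [hvn ω (ta ω), hvn ω' (ta ω), ← hc0]
      have h1 := hnear _ b1 b1' ((m : ℕ) + 1) (by omega) (by omega)
      have h2 := hnear _ b2 b2' ((m : ℕ) + 1) (by omega) (by omega)
      have h3 : ∀ a b c d : ℝ, (a - b) - (c - d) = (a - c) - (b - d) := fun a b c d => by ring
      rw [h3]
      calc _ ≤ _ := abs_sub _ _
        _ ≤ 2 ^ ((p + 1 + cw + c₁ + cN) * z) / 2 ^ (k * z) +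
            2 ^ ((p + 1 + cw + c₁ + cN) * z) / 2 ^ (k * z) := add_le_add h2 h1
        _ ≤ 2 ^ (Ca * z) / 2 ^ (k * z) := by
            rw [← add_div]
            exact div_le_div_of_nonneg_right hCa2 (by positivity)
  · -- no slab
    intro k hk m₀ ka al hk0 hk1 E' hE' hsl
    refine hns D J a₀ w₀ z M M' i j k U lam gam κ Cs ϖ q P₀ E' m₀ ka al (by omega) hO hlam hS hSl hϖ
      hNS hpn (by omega) hj hM (by omega) hU2 hU tP₀ dP₀ (fun ω hω => ?_) hk0 hk1 fun ω hω => ?_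
    · have h1 := hE' ω hω
      exact ⟨(hE ω (hE₂E ω h1)).1, (hE ω (hE₂E ω h1)).2.1, (hE ω (hE₂E ω h1)).2.2, (hbase ω h1).1⟩
    · have h1 := hsl ω hω
      rw [hv, hg, ← Nat.add_assoc] at h1
      exact h1
  · -- closedness
    intro ω ω' hω hω' hcc
    have h1 : D.c i j ω = D.c i j ω' := hcc
    have h2 : D.Φ i j ω = D.Φ i j ω' := by
      unfold NDat2.Φ
      rw [h1]
    rw [hG, hH]
    beta_reduce
    rw [h1, h2]
  · -- the polynomial
    intro ω hω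
    have h1 := hHbig ω hω
    have h2 : 0 < l1 (H ω) := lt_trans (by positivity) h1
    have hG' : G ω = MvPolynomial.C (1 / l1 (H ω)) * H ω := by rw [hG]
    have dF : (Fl g (P₀ (D.c i j ω)) p (p + 1) (D.Φ i j ω (p + 1))).totalDegree ≤ K :=
      fl_deg (tP₀ _) (dP₀ _) (hO.P_tri i j _ (p + 1)) (hO.P_deg i j _ (p + 1))
    have hsup : (G ω).support ⊆ (H ω).support := by
      intro α hα
      rw [hG', mem_support_iff, coeff_C_mul] at hα
      rw [mem_support_iff]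
      exact right_ne_zero_of_mul hα
    refine ⟨?_, fun α hα => ?_, ?_, fun a ha => ?_⟩
    · refine Pool.AF21.totalDegree_le_of fun α hα => ?_
      have h3 := hsup hα
      rw [hH] at h3
      exact Pool.AF21.degree_le dF (hi_supp h3).1
    · have h3 := hsup hα
      rw [hH] at h3
      exact (hi_supp h3).2
    · rw [hG', l1_smul, abs_of_pos (by positivity), one_div, inv_mul_cancel₀ h2.ne', zero_mul,
        pow_zero]
    · have h3 : |(aeval (lnp (e ω) (v ω)) (H ω)).coeff a| ≤ Cf * exp (1 * z) := by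
        rw [he, hv, hH]
        refine hflat D (D.ln ω) (P₀ (D.c i j ω)) (D.Φ i j ω) g p (τ (D.c i j ω)) (D.X ω 0)
          (exp (1 * z)) hS (tP₀ _) (dP₀ _) (hO.P_tri i j _) (hO.P_deg i j _ (p + 1)) ?_ ?_
          (fun s hs => ?_) a ha
        · rw [hg]
          exact (hbase ω hω).2.1 _
        · rw [hg0]
          exact (hbase ω hω).2.2
        · rw [hg0] at hs
          rw [hg]
          exact (hE ω (hE₂E ω hω)).2.1 i (by omega) j (by omega) (p + 1) (by omega) s hs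
      have h4 : (aeval (lnp (e ω) (v ω)) (G ω)).coeff a =
          1 / l1 (H ω) * (aeval (lnp (e ω) (v ω)) (H ω)).coeff a := by
        rw [hG', map_mul]
        have h5 : aeval (lnp (e ω) (v ω)) (MvPolynomial.C (1 / l1 (H ω)) : Pl (p + 1)) =
            Polynomial.C (1 / l1 (H ω)) := by
          rw [aeval_C]
          rfl
        rw [h5, Polynomial.coeff_C_mul]
      rw [h4, abs_mul, abs_of_pos (by positivity : (0 : ℝ) < 1 / l1 (H ω)), one_div_mul_eq_div,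
        div_le_div_iff₀ h2 (by positivity), one_mul]
      have h5 : Cf * exp (1 * z) ≤ 2 ^ ((f + 2) * z) := by
        rw [add_mul, pow_add]
        refine mul_le_mul (real_le_two hf hz1) (exp_two (by norm_num) z) (Real.exp_pos _).le
          (by positivity)
      calc |(aeval (lnp (e ω) (v ω)) (H ω)).coeff a| * 2 ^ (Λ * z)
          ≤ 2 ^ ((f + 2) * z) * 2 ^ (Λ * z) :=
            mul_le_mul_of_nonneg_right (h3.trans h5) (by positivity)
        _ = 2 ^ ((Λ + f + 2) * z) := by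
            rw [← pow_add]
            congr 1
            ring
        _ ≤ l1 (H ω) := h1.le

end Pool.AF37
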