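import Pool.Agent.H37.AF.Nsp
import Pool.Agent.H6.STAT.Tf
import Pool.Agent.H21.AF.Drv
import Pool.Agent.H20.KAL.TAY

/-!
# The part of degree `≥ 2` along straight lines
-/

set_option autoImplicit false

namespace Pool.AF37

open Finset Real MvPolynomial
open Pool.Agent.H49.Ent Pool.Agent.H32.Dense Pool.STK Pool.STAT Pool.MIC.Frm Pool.MIC7 Pool.FRM
open Pool.P4
open Pool.BFL (Pb Pl)

section

variable {n : ℕ}

/-- The part of degree `≥ 2`. -/
noncomputable def hi (G : Pl n) : Pl n :=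
  ∑ α ∈ G.support.filter (fun α => 2 ≤ α.degree), monomial α (G.coeff α)

theorem coeff_hi (G : Pl n) (β : Fin n →₀ ℕ) :
    coeff β (hi G) = if 2 ≤ β.degree then coeff β G else 0 := by
  classical
  unfold hi
  rw [coeff_sum]
  simp only [coeff_monomial]
  split_ifs with h
  · by_cases hβ : β ∈ G.support
    · rw [Finset.sum_eq_single_of_mem β (Finset.mem_filter.2 ⟨hβ, h⟩) fun a _ ha => if_neg ha,
        if_pos rfl]
    · rw [notMem_support_iff.1 hβ]
      refine Finset.sum_eq_zero fun a ha => ?_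
      rw [if_neg]
      intro h2
      rw [h2] at ha
      exact hβ (Finset.mem_filter.1 ha).1
  · refine Finset.sum_eq_zero fun a ha => ?_
    rw [if_neg]
    intro h2
    rw [h2] at ha
    exact h (Finset.mem_filter.1 ha).2

theorem hi_supp {G : Pl n} {α : Fin n →₀ ℕ} (hα : α ∈ (hi G).support) :
    α ∈ G.support ∧ 2 ≤ α.degree := by
  rw [mem_support_iff, coeff_hi] at hα
  rw [mem_support_iff]
  by_cases h : 2 ≤ α.degree
  · rw [if_pos h] at hα
    exact ⟨hα, h⟩
  · rw [if_neg h] at hα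
    exact absurd rfl hα

theorem hi_deg {G : Pl n} {K : ℕ} (hG : G.totalDegree ≤ K) : (hi G).totalDegree ≤ K :=
  Pool.AF21.totalDegree_le_of fun _ hα => Pool.AF21.degree_le hG (hi_supp hα).1

/-- The affine part. -/
noncomputable def lo (G : Pl n) : Pl n := G - hi G

theorem lo_deg (G : Pl n) : (lo G).totalDegree ≤ 1 := by
  refine Pool.AF21.totalDegree_le_of fun α hα => ?_
  rw [mem_support_iff] at hα
  unfold lo at hα
  rw [coeff_sub, coeff_hi] at hα
  by_contra h
  rw [if_pos (by omega), sub_self] at hα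
  exact hα rfl

theorem lo_add_hi (G : Pl n) : lo G + hi G = G := by
  unfold lo
  rw [sub_add_cancel]

theorem l1_nn (G : Pl n) : 0 ≤ l1 G := Finset.sum_nonneg fun _ _ => abs_nonneg _

theorem l1_smul (c : ℝ) (G : Pl n) : l1 (C c * G) = |c| * l1 G := by
  have h1 : (C c * G).support ⊆ G.support := by
    intro α hα
    rw [mem_support_iff, coeff_C_mul] at hα
    rw [mem_support_iff]
    exact right_ne_zero_of_mul hα
  rw [Pool.AF21.l1_eq h1]
  unfold l1
  rw [Finset.mul_sum]
  refine Finset.sum_congr rfl fun α _ => ?_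
  rw [coeff_C_mul, abs_mul]

/-- The values. -/
theorem eval_le_l1 {G : Pl n} {K : ℕ} (hG : G.totalDegree ≤ K) {T : ℝ} (hT : 1 ≤ T)
    {y : Fin n → ℝ} (hy : ∀ i, |y i| ≤ T) : |eval y G| ≤ T ^ K * l1 G := by
  rw [eval_eq']
  unfold l1
  rw [Finset.mul_sum]
  refine (Finset.abs_sum_le_sum_abs _ _).trans (Finset.sum_le_sum fun α hα => ?_)
  rw [abs_mul, Finset.abs_prod, mul_comm]
  refine mul_le_mul_of_nonneg_right ?_ (abs_nonneg _)
  calc ∏ i, |y i ^ α i| ≤ ∏ i, T ^ α i := by
        refine Finset.prod_le_prod (fun _ _ => abs_nonneg _) fun i _ => ?_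
        rw [abs_pow]
        exact pow_le_pow_left₀ (abs_nonneg _) (hy i) _
    _ = T ^ ∑ i, α i := by rw [Finset.prod_pow_eq_pow_sum]
    _ ≤ T ^ K := by
        refine pow_le_pow_right₀ hT ?_
        have := (le_totalDegree hα).trans hG
        rwa [Finsupp.sum_fintype _ _ (fun _ => rfl)] at this

/-- Values along a curve. -/
theorem eval_curve (L : Fin n → Polynomial ℝ) (G : Pl n) (σ : ℝ) :
    (aeval L G).eval σ = eval (fun i => (L i).eval σ) G := by
  induction G using MvPolynomial.induction_on with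
  | C a => simp
  | add p q hp hq => rw [map_add, Polynomial.eval_add, hp, hq, map_add]
  | mul_X p i hp => rw [map_mul, Polynomial.eval_mul, hp, map_mul, aeval_X, eval_X]

theorem deg_curve {L : Fin n → Polynomial ℝ} (hL : ∀ i, (L i).natDegree ≤ 1) {G : Pl n} {K : ℕ}
    (hG : G.totalDegree ≤ K) : (aeval L G).natDegree ≤ K := by
  rw [aeval_def, eval₂_eq']
  refine Polynomial.natDegree_sum_le_of_forall_le _ _ fun α hα => ?_
  refine (Polynomial.natDegree_mul_le).trans ?_
  have h1 : (algebraMap ℝ (Polynomial ℝ) (coeff α G)).natDegree = 0 := Polynomial.natDegree_C _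
  rw [h1, zero_add]
  refine (Polynomial.natDegree_prod_le _ _).trans ?_
  have h2 : ∀ i ∈ univ, (L i ^ α i).natDegree ≤ α i := by
    intro i _
    refine (Polynomial.natDegree_pow_le).trans ?_
    have := Nat.mul_le_mul_left (α i) (hL i)
    rwa [mul_one] at this
  refine (Finset.sum_le_sum h2).trans ?_
  have := (le_totalDegree hα).trans hG
  rwa [Finsupp.sum_fintype _ _ (fun _ => rfl)] at this

end

theorem lnp_deg {n : ℕ} (e v : Fin n → ℝ) (i : Fin (n + 1)) : (lnp e v i).natDegree ≤ 1 := by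
  unfold lnp
  refine Fin.cases ?_ (fun m => ?_) i
  · rw [Fin.cons_zero]
    exact Polynomial.natDegree_X_le
  · rw [Fin.cons_succ]
    refine (Polynomial.natDegree_add_le _ _).trans (max_le ?_ ?_)
    · rw [Polynomial.natDegree_C]
      exact Nat.zero_le _
    · exact (Polynomial.natDegree_C_mul_le _ _).trans Polynomial.natDegree_X_le

/-- **Coefficients** of a polynomial which is bounded near a point of `[-1, 1]`. -/
theorem coef_near (K : ℕ) : ∃ C : ℝ, 1 ≤ C ∧ ∀ (u : Polynomial ℝ) (s M : ℝ), u.natDegree ≤ K →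
    |s| ≤ 1 → (∀ σ : ℝ, |σ - s| ≤ 1 → |u.eval σ| ≤ M) → ∀ m, |u.coeff m| ≤ C * M := by
  obtain ⟨C, hC, h⟩ := Pool.KAL.TAY.coef_bound K
  refine ⟨C + 1, by linarith, ?_⟩
  intro u s M hu hs hM m
  have hM0 : 0 ≤ M := (abs_nonneg _).trans (hM s (by simp))
  rcases Nat.lt_or_ge K m with hm | hm
  · rw [Polynomial.coeff_eq_zero_of_natDegree_lt (lt_of_le_of_lt hu hm), abs_zero]
    positivity
  obtain ⟨s1, s2⟩ := abs_le.1 hs
  have key : |u.coeff m| ≤ C * M := by
    rcases le_total 0 s with h0 | h0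
    · refine h u M hu (fun t t0 t1 => hM t ?_) m hm
      rw [abs_le]
      constructor <;> linarith
    · have h1 := h (u.comp (Polynomial.C (-1) * Polynomial.X)) M (by
        refine (Polynomial.natDegree_comp_le).trans ?_
        have h2 : (Polynomial.C (-1 : ℝ) * Polynomial.X).natDegree ≤ 1 :=
          (Polynomial.natDegree_C_mul_le _ _).trans Polynomial.natDegree_X_le
        calc u.natDegree * (Polynomial.C (-1 : ℝ) * Polynomial.X).natDegree ≤ K * 1 :=
              Nat.mul_le_mul hu h2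
          _ = K := mul_one K) (fun t t0 t1 => by
          rw [Polynomial.eval_comp, Polynomial.eval_mul, Polynomial.eval_C, Polynomial.eval_X]
          refine hM (-1 * t) ?_
          rw [abs_le]
          constructor <;> linarith) m hm
      rw [Polynomial.comp_C_mul_X_coeff, abs_mul, abs_pow, abs_neg, abs_one, one_pow, mul_one] at h1
      exact h1
  nlinarith

/-! ### The label in the letters of the frame -/

section

variable {P Φ : ℕ → PN} {g : ℕ → ℕ} {p l K : ℕ}

/-- The label of the coordinate `l` in the natural letters of the frame `P`. -/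
noncomputable def Fl (g : ℕ → ℕ) (P : ℕ → PN) (p l : ℕ) (F : PN) : Pl (p + 1) :=
  C (2 ^ g l) * toF (p + 1) (bind₁ (nuc g P) F)

theorem fl_deg (hP : TriN P) (dP : ∀ m, (P m).totalDegree ≤ 1) {F : PN}
    (hF : F.vars ⊆ range (p + 1)) (dF : F.totalDegree ≤ K) : (Fl g P p l F).totalDegree ≤ K := by
  have hv : (bind₁ (nuc g P) F).vars ⊆ range (p + 1) := vars_fr hP hF
  have hd : (bind₁ (nuc g P) F).totalDegree ≤ K := by
    refine (Dgb.deg_bind (B := 1) fun k _ => deg_nuc_one hP dP _ k).trans ?_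
    rw [mul_one]
    exact dF
  refine Pool.AF21.totalDegree_le_of fun α hα => ?_
  have h1 : (toF (p + 1) (bind₁ (nuc g P) F)).coeff α ≠ 0 := by
    rw [mem_support_iff] at hα
    unfold Fl at hα
    rw [coeff_C_mul] at hα
    exact right_ne_zero_of_mul hα
  rw [T6.toF_coeff hv] at h1
  have h2 := (le_totalDegree (mem_support_iff.2 h1)).trans hd
  rw [← Finsupp.degree_mapDomain (Fin.val : Fin (p + 1) → ℕ) α]
  exact h2

theorem fl_eval (hP : TriN P) {F : PN} (hF : F.vars ⊆ range (p + 1)) (b : ℕ → ℝ) :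
    eval (fun i : Fin (p + 1) => nat g P b i) (Fl g P p l F) = 2 ^ g l * eval b F := by
  unfold Fl
  rw [map_mul, eval_C, T6.toF_eval (vars_fr hP hF) (nat g P b), eval_fr hP b F]

variable {D : NDat2} {x : D.Λ}

theorem line_pt (hS : D.Strt) (hP : TriN P) (dP : ∀ m, (P m).totalDegree ≤ 1) {τ : ℝ}
    (hτ : nat g P (pp D x τ) 0 = 0) (σ : ℝ) (i : Fin (p + 1)) :
    (lnp (fun m : Fin p => nat g P (pp D x τ) (m + 1)) (fun m : Fin p => vn D g P x (m + 1))
      i).eval σ = nat g P (pp D x (τ + σ / 2 ^ g 0)) i := by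
  unfold lnp
  refine Fin.cases ?_ (fun m => ?_) i
  · rw [Fin.cons_zero, Polynomial.eval_X]
    have h1 := zs_time hP (pp D x (τ + σ / 2 ^ g 0)) (pp D x τ)
    have h2 : pp D x (τ + σ / 2 ^ g 0) 0 - pp D x τ 0 = σ / 2 ^ g 0 := by
      unfold pp
      rw [if_pos rfl, if_pos rfl]
      ring
    rw [nat_eq] at hτ
    have h3 : zs P (pp D x τ) 0 = 0 := by
      rcases mul_eq_zero.1 hτ with h | h
      · exact absurd h (by positivity)
      · exact h
    rw [h2, h3, sub_zero] at h1
    rw [Fin.val_zero, nat_eq, h1]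
    field_simp
  · rw [Fin.cons_succ, Polynomial.eval_add, Polynomial.eval_C, Polynomial.eval_mul,
      Polynomial.eval_C, Polynomial.eval_X, Fin.val_succ]
    have h1 := nat_two (x := x) hS hP dP g (τ + σ / 2 ^ g 0) τ ((m : ℕ) + 1)
    have h2 : 2 ^ g 0 * (τ + σ / 2 ^ g 0 - τ) = σ := by
      field_simp
      ring
    rw [h2] at h1
    linarith

/-- **The part of degree `≥ 2` of the label has no coefficients of order `≥ 2` along the lines.** -/
theorem fl_flat (K : ℕ) : ∃ C : ℝ, 1 ≤ C ∧ ∀ (D : NDat2) (x : D.Λ) (P Φ : ℕ → PN) (g : ℕ → ℕ)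
    (p : ℕ) (τ s S : ℝ), D.Strt → TriN P → (∀ m, (P m).totalDegree ≤ 1) → TriN Φ →
    (Φ (p + 1)).totalDegree ≤ K → nat g P (pp D x τ) 0 = 0 → |s - τ| ≤ 1 / 2 ^ g 0 →
    (∀ t, |t - s| ≤ 1 / 2 ^ g 0 → |nat g Φ (pp D x t) (p + 1)| ≤ S) → ∀ a, 2 ≤ a →
    |(aeval (lnp (fun m : Fin p => nat g P (pp D x τ) (m + 1))
      (fun m : Fin p => vn D g P x (m + 1))) (hi (Fl g P p (p + 1) (Φ (p + 1))))).coeff a| ≤
      C * S := by
  obtain ⟨C, hC, hco⟩ := coef_near (max 1 K)
  refine ⟨C, hC, ?_⟩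
  intro D x P Φ g p τ s S hS hP dP hΦ dΦ hτ hs hnat a ha
  obtain ⟨L, hL⟩ : ∃ L, L = lnp (fun m : Fin p => nat g P (pp D x τ) (m + 1))
    (fun m : Fin p => vn D g P x (m + 1)) := ⟨_, rfl⟩
  obtain ⟨G, hG⟩ : ∃ G, G = Fl g P p (p + 1) (Φ (p + 1)) := ⟨_, rfl⟩
  have dG : G.totalDegree ≤ K := by
    rw [hG]
    exact fl_deg hP dP (hΦ (p + 1)) dΦ
  have hLd : ∀ i, (L i).natDegree ≤ 1 := fun i => by
    rw [hL]
    exact lnp_deg _ _ i
  rw [← hL, ← hG]
  have e1 : (aeval L (hi G)).coeff a = (aeval L G).coeff a := by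
    conv_rhs => rw [← lo_add_hi G]
    rw [map_add, Polynomial.coeff_add, Polynomial.coeff_eq_zero_of_natDegree_lt (p := aeval L (lo G))
      (lt_of_le_of_lt (deg_curve hLd (lo_deg G)) ha), zero_add]
  obtain ⟨A, hA⟩ : ∃ A : Polynomial ℝ, A = Polynomial.C (2 ^ g (p + 1) * pp D x τ (p + 1)) +
    Polynomial.C (2 ^ g (p + 1) * (pp D x 1 (p + 1) - pp D x 0 (p + 1)) / 2 ^ g 0) *
      Polynomial.X := ⟨_, rfl⟩
  have dA : A.natDegree ≤ 1 := by
    rw [hA]
    refine (Polynomial.natDegree_add_le _ _).trans (max_le ?_ ?_)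
    · rw [Polynomial.natDegree_C]
      exact Nat.zero_le _
    · exact (Polynomial.natDegree_C_mul_le _ _).trans Polynomial.natDegree_X_le
  have e2 : (aeval L G).coeff a = -(A - aeval L G).coeff a := by
    rw [Polynomial.coeff_sub, Polynomial.coeff_eq_zero_of_natDegree_lt (lt_of_le_of_lt dA ha)]
    ring
  rw [e1, e2, abs_neg]
  refine hco (A - aeval L G) (2 ^ g 0 * (s - τ)) S ?_ ?_ ?_ a
  · refine (Polynomial.natDegree_sub_le _ _).trans (max_le_max dA (deg_curve hLd dG))
  · rw [abs_mul, abs_of_pos (by positivity)]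
    rw [le_div_iff₀ (by positivity)] at hs
    linarith
  · intro σ hσ
    have h1 : |τ + σ / 2 ^ g 0 - s| ≤ 1 / 2 ^ g 0 := by
      have h2 : τ + σ / 2 ^ g 0 - s = (σ - 2 ^ g 0 * (s - τ)) / 2 ^ g 0 := by
        field_simp
        ring
      rw [h2, abs_div, abs_of_pos (by positivity : (0 : ℝ) < 2 ^ g 0)]
      exact div_le_div_of_nonneg_right hσ (by positivity)
    have h3 := hnat _ h1
    have h4 : (A - aeval L G).eval σ = nat g Φ (pp D x (τ + σ / 2 ^ g 0)) (p + 1) := by
      rw [Polynomial.eval_sub, eval_curve]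
      have h5 : (fun i => (L i).eval σ) =
          fun i : Fin (p + 1) => nat g P (pp D x (τ + σ / 2 ^ g 0)) i := by
        funext i
        rw [hL]
        exact line_pt hS hP dP hτ σ i
      rw [h5, hG, fl_eval hP (hΦ (p + 1)), hA]
      simp only [Polynomial.eval_add, Polynomial.eval_mul, Polynomial.eval_C, Polynomial.eval_X]
      unfold nat
      have h6 := congrFun (pp_seg (x := x) hS (τ + σ / 2 ^ g 0)) (p + 1)
      have h7 := congrFun (pp_seg (x := x) hS τ) (p + 1)
      rw [h6, h7]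
      field_simp
      ring
    rw [h4]
    exact h3

end

end Pool.AF37
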