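import Pool.Agent.H37.AF.Bnd
import Pool.Agent.H35.AF.Fra
import Pool.Agent.H12.AF.Cha
import Pool.Agent.H38.TC.GeoQ

/-!
# Affine frames
-/

set_option autoImplicit false

namespace Pool.AF37

open Finset Real MvPolynomial
open Pool.Agent.H49.Ent Pool.Agent.H32.Dense Pool.STK Pool.STAT Pool.MIC.Frm Pool.MIC7 Pool.FRM
open Pool.P4
open Pool.BFL (Pb Pl)

theorem fraC_mono {D : NDat2} {n K z M M' : ℕ} {C C' : ℝ} {ω : D.Ω} (h : FraC D n K M z C ω)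
    (hM : M' ≤ M) (hC : C ≤ C') : FraC D n K M' z C' ω := by
  obtain ⟨P, t, d, th, hn⟩ := h
  refine ⟨P, t, d, th, fun i hi j hj l hl => (hn i (by omega) j (by omega) l hl).trans ?_⟩
  refine div_le_div_of_nonneg_right (exp_le_exp.2 ?_) (by positivity)
  exact mul_le_mul_of_nonneg_right hC (Nat.cast_nonneg z)

theorem goodS_monoM {D : NDat2} {n K w₀ z M M' : ℕ} {C C' : ℝ} {ω : D.Ω}
    (h : GoodS D n K w₀ z M C ω) (hM : M' ≤ M) (hC : C ≤ C') : GoodS D n K w₀ z M' C' ω := by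
  have hc : ∀ l : ℕ, exp (C * z) / 2 ^ l ≤ exp (C' * z) / 2 ^ l := fun l =>
    div_le_div_of_nonneg_right (exp_le_exp.2 (mul_le_mul_of_nonneg_right hC (Nat.cast_nonneg z)))
      (by positivity)
  refine ⟨fraC_mono h.fc hM hC, ?_, fun i hi j hj => h.pc i (by omega) j (by omega)⟩
  obtain ⟨P, t, d, th, hn⟩ := h.fv
  exact ⟨P, t, d, th, fun i hi j hj l hl => (hn i (by omega) j (by omega) l hl).trans (hc _)⟩

/-- **The induction over the coordinates.** -/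
theorem aff_ind (hA : AffS) (n K Kf : ℕ) (C₁ C₀ Cs : ℝ) (hn : 1 ≤ n) (hK : K ≤ Kf)
    (hC₀ : 0 ≤ C₀) (p : ℕ) : p ≤ n → ∃ (C : ℝ) (R z₀ : ℕ), C₀ ≤ C ∧ ∀ M' : ℕ, ∃ N : ℕ,
    ∀ (D : NDat2) (J a₀ w₀ z M : ℕ) (lam gam : ℕ → ℝ) (κ ϖ : ℝ) (q : D.Ω → ℝ) (E : D.Ω → Prop),
      z₀ ≤ z → D.Ok2 n K J a₀ w₀ z M lam gam κ C₁ q → (∀ l, 1 ≤ l → l ≤ n → lam l = 1) →
      D.Strt → D.Slp n J z M q → 0 ≤ ϖ → D.NoSl n J w₀ z M 1 Cs ϖ q → M' + R ≤ M →
      (∀ ω, E ω → 0 < q ω ∧ PthC D n w₀ z M 1 ω ∧ FraC D n Kf M z C₀ ω) →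
      Pb q (fun ω => E ω ∧ ¬ FraC D p 1 M' z C ω) ≤ N * ϖ := by
  induction p with
  | zero =>
    intro _
    refine ⟨C₀, 0, 0, le_rfl, fun M' => ⟨0, ?_⟩⟩
    intro D J a₀ w₀ z M lam gam κ ϖ q E _ hO _ _ _ hϖ _ hM hE
    rw [Nat.cast_zero, zero_mul]
    have h1 : ∀ ω, ¬ (E ω ∧ ¬ FraC D 0 1 M' z C₀ ω) := fun ω hω =>
      hω.2 (fraC_mono (Pool.AF35.fraZero n Kf C₀ D z M ω (fun i j => hO.P_tri i j _)
        (hE ω hω.1).2.2) (by omega) le_rfl)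
    unfold Pb
    refine (Finset.sum_eq_zero fun ω _ => ?_).le
    rw [if_neg (h1 ω)]
  | succ p ih =>
    intro hp
    obtain ⟨C, R, z₁, hC, hI⟩ := ih (by omega)
    have hC0 : 0 ≤ C := hC₀.trans hC
    obtain ⟨B, U, k₀, Nb, z₂, hB, hbnd⟩ := bnd hA Pool.AF12.chtAff n p K C₁ C Cs hn hC0
    obtain ⟨C', hC', hone⟩ := Pool.AF35.fraOne n Kf C B hC0 hB
    refine ⟨max C C', k₀ + 1 + R + 2 * U, max (max z₁ z₂) 1, hC.trans (le_max_left _ _), fun M' => ?_⟩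
    obtain ⟨N, hN⟩ := hI (M' + (k₀ + 1))
    refine ⟨N + M' * M' * Nb, ?_⟩
    intro D J a₀ w₀ z M lam gam κ ϖ q E hz hO hlam hS hSl hϖ hNS hM hE
    have h1 := hN D J a₀ w₀ z M lam gam κ ϖ q E (by omega) hO hlam hS hSl hϖ hNS (by omega) hE
    have h2 : ∀ ij ∈ (range M') ×ˢ (range M'), Pb q (fun ω => (E ω ∧
        FraC D p 1 (M' + (k₀ + 1)) z C ω) ∧ ¬ AfL D z ij.1 ij.2 (p + 1) B ω) ≤ Nb * ϖ := by
      intro ij hij
      rw [Finset.mem_product, mem_range, mem_range] at hij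
      exact hbnd D J a₀ w₀ z M (M' + (k₀ + 1)) ij.1 ij.2 lam gam κ ϖ q
        (fun ω => E ω ∧ FraC D p 1 (M' + (k₀ + 1)) z C ω) (by omega) hO hlam hS hSl hϖ hNS (by omega)
        (by omega) (by omega) (by omega) (by omega) (by omega)
        (fun ω hω => ⟨(hE ω hω.1).1, (hE ω hω.1).2.1, hω.2⟩)
    have h3 : Pb q (fun ω => E ω ∧ ¬ FraC D (p + 1) 1 M' z (max C C') ω) ≤
        Pb q (fun ω => E ω ∧ ¬ FraC D p 1 (M' + (k₀ + 1)) z C ω) +
        ∑ ij ∈ (range M') ×ˢ (range M'), Pb q (fun ω => (E ω ∧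
          FraC D p 1 (M' + (k₀ + 1)) z C ω) ∧ ¬ AfL D z ij.1 ij.2 (p + 1) B ω) := by
      have h4 : Pb q (fun ω => E ω ∧ ¬ FraC D (p + 1) 1 M' z (max C C') ω) ≤
          ∑ o : Bool, Pb q (fun ω => if o then (E ω ∧ ¬ FraC D p 1 (M' + (k₀ + 1)) z C ω) else
            ∃ ij ∈ (range M') ×ˢ (range M'), (E ω ∧
              FraC D p 1 (M' + (k₀ + 1)) z C ω) ∧ ¬ AfL D z ij.1 ij.2 (p + 1) B ω) := by
        refine pb_sum hO.isLaw.nonneg univ fun ω _ hω => ?_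
        by_cases h5 : FraC D p 1 (M' + (k₀ + 1)) z C ω
        · refine ⟨false, Finset.mem_univ _, ?_⟩
          rw [if_neg (by simp)]
          by_contra hcon
          push Not at hcon
          refine hω.2 (fraC_mono (hone D z M' (p + 1) ω (by omega) (by omega) hp
            (fun i j => hO.P_tri i j _) (fun i j m => (hO.P_deg i j _ m).trans hK)
            (fraC_mono (hE ω hω.1).2.2 (by omega) hC) (fraC_mono h5 (by omega) le_rfl)
            fun i hi j hj => ?_) le_rfl (le_max_right _ _))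
          exact hcon (i, j) (by rw [Finset.mem_product, mem_range, mem_range]; exact ⟨hi, hj⟩)
            ⟨hω.1, h5⟩
        · refine ⟨true, Finset.mem_univ _, ?_⟩
          rw [if_pos rfl]
          exact ⟨hω.1, h5⟩
      rw [Fintype.sum_bool] at h4
      simp only [if_true, Bool.false_eq_true, if_false] at h4
      refine h4.trans (add_le_add le_rfl ?_)
      exact pb_sum hO.isLaw.nonneg _ fun ω _ hω => hω
    refine h3.trans ((add_le_add h1 (Finset.sum_le_sum h2)).trans (le_of_eq ?_))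
    rw [Finset.sum_const, Finset.card_product, card_range, nsmul_eq_mul]
    push_cast
    ring

/-- **Affine frames.** -/
theorem aff_ev (hA : AffS) : AffEv := by
  intro n K lam gam C₁ Cs hn hC₁ hlam
  obtain ⟨K₁, Ca, hK₁, hCa, hev⟩ := Pool.TCO.good_ev Pool.P4.pth_stmt Pool.P4.cfr_stmt n K lam gam C₁
    hn hC₁
  obtain ⟨C, R, z₁, hC, hI⟩ := aff_ind hA n K (max K₁ 1) C₁ Ca Cs hn
    (hK₁.trans (le_max_left _ _)) hCa n le_rfl
  refine ⟨max K₁ 1, C, hK₁.trans (le_max_left _ _), le_max_right _ _, hCa.trans hC, ?_⟩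
  intro M' e hM' he
  obtain ⟨N, hN⟩ := hI M'
  obtain ⟨κ₁, z₂, hκ₁, hev⟩ := hev (M' + R) (e / 2) (by omega) (by positivity)
  have hN1 : (0 : ℝ) < 2 * (N + 1) := by positivity
  refine ⟨M' + R, min κ₁ (e / (2 * (N + 1))), max z₁ z₂, by omega, lt_min hκ₁ (by positivity), ?_⟩
  intro J a₀ w₀ z D q hz hO hT hS hSl hNS
  obtain ⟨κ, hκ⟩ : ∃ κ, κ = min κ₁ (e / (2 * (N + 1))) := ⟨_, rfl⟩
  rw [← hκ] at hO hT hNS
  have k1 : κ ≤ κ₁ := by rw [hκ]; exact min_le_left _ _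
  have k2 : κ ≤ e / (2 * (N + 1)) := by rw [hκ]; exact min_le_right _ _
  have k3 : 0 < κ := by rw [hκ]; exact lt_min hκ₁ (by positivity)
  obtain ⟨E₁, hE₁, hE₁'⟩ := hev J a₀ w₀ z D q (by omega) (Pool.P4.ok2_mono hO k1)
    (Pool.P4.tmu_mono hT k1)
  have h1 := hN D J a₀ w₀ z (M' + R) lam gam κ κ q E₁ (by omega) hO hlam hS hSl k3.le hNS le_rfl
    (fun ω hω => ⟨(hE₁' ω hω).1, (hE₁' ω hω).2.pc,
      Pool.P4.FraC.monoK (hE₁' ω hω).2.fc (le_max_left _ _) le_rfl⟩)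
  refine ⟨fun ω => E₁ ω ∧ FraC D n 1 M' z C ω, ?_, fun ω hω => ⟨(hE₁' ω hω.1).1, ?_, hω.2⟩⟩
  · have h2 : Pb q (fun ω => ¬ (E₁ ω ∧ FraC D n 1 M' z C ω)) ≤
        Pb q (fun ω => ¬ E₁ ω) + Pb q (fun ω => E₁ ω ∧ ¬ FraC D n 1 M' z C ω) := by
      have h4 : Pb q (fun ω => ¬ (E₁ ω ∧ FraC D n 1 M' z C ω)) ≤
          ∑ o : Bool, Pb q (fun ω => if o then ¬ E₁ ω else (E₁ ω ∧ ¬ FraC D n 1 M' z C ω)) := by
        refine pb_sum hO.isLaw.nonneg univ fun ω _ hω => ?_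
        by_cases h5 : E₁ ω
        · refine ⟨false, Finset.mem_univ _, ?_⟩
          rw [if_neg (by simp)]
          exact ⟨h5, fun h6 => hω ⟨h5, h6⟩⟩
        · refine ⟨true, Finset.mem_univ _, ?_⟩
          rw [if_pos rfl]
          exact h5
      rw [Fintype.sum_bool] at h4
      simpa only [if_true, Bool.false_eq_true, if_false] using h4
    have h3 : (N : ℝ) * κ ≤ e / 2 := by
      calc (N : ℝ) * κ ≤ N * (e / (2 * (N + 1))) := mul_le_mul_of_nonneg_left k2 (by positivity)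
        _ = (e / 2) * (N / (N + 1)) := by field_simp
        _ ≤ (e / 2) * 1 := by
            refine mul_le_mul_of_nonneg_left ?_ (by positivity)
            rw [div_le_one (by positivity)]
            linarith
        _ = e / 2 := mul_one _
    linarith
  · exact goodS_monoM (Pool.TCO.goodS_up (hE₁' ω hω.1).2 (le_max_left _ _) le_rfl)
      (Nat.le_add_right _ _) hC

end Pool.AF37
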