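import Pool.Agent.H37.AF.Let
import Pool.Agent.H37.TC.Frs

/-!
# The slab, in the letters of a place with a smaller radius
-/

set_option autoImplicit false

namespace Pool.AF37

open Finset Real MvPolynomial
open Pool.Agent.H49.Ent Pool.Agent.H32.Dense Pool.STK Pool.STAT Pool.MIC.Frm Pool.MIC7 Pool.FRM
open Pool.P4
open Pool.BFL (Pb Pl)

section

variable {A : Type} [Fintype A] {q : A → ℝ}

theorem pb_nn (h0 : ∀ a, 0 ≤ q a) (E : A → Prop) : 0 ≤ Pb q E := by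
  classical
  unfold Pb
  refine Finset.sum_nonneg fun a _ => ?_
  split_ifs
  · exact h0 a
  · exact le_rfl

theorem pb_mono (h0 : ∀ a, 0 ≤ q a) {E F : A → Prop} (h : ∀ a, 0 < q a → E a → F a) :
    Pb q E ≤ Pb q F := by
  classical
  unfold Pb
  refine Finset.sum_le_sum fun a _ => ?_
  rcases (h0 a).eq_or_lt with h1 | h1
  · rw [← h1]
    split_ifs <;> exact le_rfl
  · by_cases hE : E a
    · rw [if_pos hE, if_pos (h a h1 hE)]
    · rw [if_neg hE]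
      split_ifs
      · exact h1.le
      · exact le_rfl

theorem pb_sum {ι : Type} (h0 : ∀ a, 0 ≤ q a) (s : Finset ι) {E : A → Prop} {F : ι → A → Prop}
    (h : ∀ a, 0 < q a → E a → ∃ i ∈ s, F i a) : Pb q E ≤ ∑ i ∈ s, Pb q (F i) := by
  classical
  unfold Pb
  rw [Finset.sum_comm]
  refine Finset.sum_le_sum fun a _ => ?_
  have hnn : ∀ i ∈ s, (0 : ℝ) ≤ if F i a then q a else 0 := fun i _ => by
    split_ifs
    · exact h0 a
    · exact le_rfl
  rcases (h0 a).eq_or_lt with h1 | h1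
  · rw [← h1]
    simp
  · split_ifs with h5
    · obtain ⟨j, hj, hj'⟩ := h a h1 h5
      refine le_trans (le_of_eq ?_) (Finset.single_le_sum hnn hj)
      rw [if_pos hj']
    · exact Finset.sum_nonneg hnn

end

/-- **The transpose of a unipotent matrix.** -/
theorem dual_low (p : ℕ) {W : ℕ → ℕ → ℝ} {B ε : ℝ} (hB : 1 ≤ B) (hW1 : ∀ m, W m m = 1)
    (hW0 : ∀ m k, m < k → W m k = 0) (hW : ∀ m ∈ Icc 1 p, ∀ k, |W m k| ≤ B) {ka : ℕ → ℝ}
    (hε : 0 ≤ ε) (h : ∀ k ∈ Icc 1 p, |∑ m ∈ Icc 1 p, ka m * W m k| ≤ ε) (d : ℕ) :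
    ∀ k ∈ Icc 1 p, p - k ≤ d → |ka k| ≤ ε * (1 + p * B) ^ d := by
  classical
  induction d with
  | zero =>
    intro k hk hd
    have h1 := h k hk
    rw [← Finset.add_sum_erase _ _ hk, hW1, mul_one, Finset.sum_eq_zero, add_zero] at h1
    · simpa using h1
    · intro m hm
      rw [mem_erase, mem_Icc] at hm
      rw [mem_Icc] at hk
      rw [hW0 m k (by omega), mul_zero]
  | succ d ih =>
    intro k hk hd
    have h1 := h k hk
    rw [← Finset.add_sum_erase _ _ hk, hW1, mul_one] at h1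
    have h2 : |∑ m ∈ (Icc 1 p).erase k, ka m * W m k| ≤ p * (B * (ε * (1 + p * B) ^ d)) := by
      refine (Finset.abs_sum_le_sum_abs _ _).trans ?_
      have h3 : ∀ m ∈ (Icc 1 p).erase k, |ka m * W m k| ≤ B * (ε * (1 + p * B) ^ d) := by
        intro m hm
        rw [mem_erase] at hm
        have hm2 := mem_Icc.1 hm.2
        have hk2 := mem_Icc.1 hk
        rcases Nat.lt_or_ge m k with h4 | h4
        · rw [hW0 m k h4, mul_zero, abs_zero]
          positivity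
        · rw [abs_mul, mul_comm]
          exact mul_le_mul (hW m hm.2 k) (ih m hm.2 (by omega)) (abs_nonneg _) (by linarith)
      refine (Finset.sum_le_card_nsmul _ _ _ h3).trans ?_
      rw [nsmul_eq_mul]
      refine mul_le_mul_of_nonneg_right ?_ (by positivity)
      have h5 : ((Icc 1 p).erase k).card ≤ p := by
        refine (Finset.card_erase_le).trans ?_
        rw [Nat.card_Icc]
        omega
      exact_mod_cast h5
    have h3 : |ka k| ≤ ε + p * (B * (ε * (1 + p * B) ^ d)) := by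
      have := abs_sub_abs_le_abs_sub (ka k) (-∑ m ∈ (Icc 1 p).erase k, ka m * W m k)
      rw [sub_neg_eq_add, abs_neg] at this
      linarith
    refine h3.trans ?_
    have h4 : (1 : ℝ) ≤ (1 + p * B) ^ d := one_le_pow₀ (by
      have : 0 ≤ (p : ℝ) * B := by positivity
      linarith)
    rw [pow_succ]
    nlinarith

section

variable {D : NDat2} {n K J a₀ w₀ z M : ℕ} {lam gam : ℕ → ℝ} {κ C₁ : ℝ} {q : D.Ω → ℝ}

theorem c_down (hO : D.Ok2 n K J a₀ w₀ z M lam gam κ C₁ q) {i j : ℕ} (hj : j ≤ M) (s : ℕ)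
    (hi : i + s ≤ M) {ω ω' : D.Ω} (h1 : 0 < q ω) (h2 : 0 < q ω')
    (e : D.c (i + s) j ω = D.c (i + s) j ω') : D.c i j ω = D.c i j ω' := by
  induction s with
  | zero => simpa using e
  | succ s ih =>
    refine ih (by omega) ?_
    exact hO.c_i (i + s) (by omega) j hj ω ω' h1 h2 (by rw [Nat.add_assoc]; exact e)

end

/-- Powers of two. -/
theorem exp_two {a : ℝ} {c : ℕ} (hc : 2 * a ≤ c) (z : ℕ) : exp (a * z) ≤ 2 ^ (c * z) := by
  have h1 : exp (1 : ℝ) ≤ 4 := by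
    have := Real.exp_one_lt_d9
    linarith
  have h2 : exp (1 / 2 : ℝ) ≤ 2 := by
    have h3 : exp (1 / 2 : ℝ) ^ 2 = exp 1 := by
      rw [← Real.exp_nat_mul]
      norm_num
    nlinarith [Real.exp_pos (1 / 2 : ℝ)]
  have h4 : a * z ≤ ((c * z : ℕ) : ℝ) * (1 / 2) := by
    push_cast
    have : (0 : ℝ) ≤ z := Nat.cast_nonneg z
    nlinarith
  calc exp (a * z) ≤ exp (((c * z : ℕ) : ℝ) * (1 / 2)) := exp_le_exp.2 h4
    _ = exp (1 / 2) ^ (c * z) := by rw [Real.exp_nat_mul]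
    _ ≤ 2 ^ (c * z) := pow_le_pow_left₀ (Real.exp_pos _).le h2 _

/-- **The heights over a near affine frame**, on the window. -/
theorem win_nat (n K : ℕ) (C : ℝ) (hC : 0 ≤ C) : ∃ c : ℕ, 1 ≤ c ∧ ∀ (D : NDat2)
    (w₀ z M i j p : ℕ) (P : ℕ → PN) (ω ω' : D.Ω), 1 ≤ z → i ≤ M → j ≤ M → p ≤ n → TriN P →
    (∀ m, (P m).totalDegree ≤ 1) → TriN (D.Φ i j ω) → (∀ m, (D.Φ i j ω m).totalDegree ≤ K) →
    PthC D n w₀ z M 1 ω → D.c i j ω' = D.c i j ω →
    (∀ m ≤ p, nrm (D.g i j) (1 / 2) (chr P (D.Φ i j ω' m - P m)) ≤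
      exp (C * z) / 2 ^ D.g i j m) → ∀ t : ℝ, |t - D.X ω 0| ≤ 1 / 2 ^ (w₀ + j * z) →
      ∀ m ≤ p, |nat (D.g i j) P (pp D (D.ln ω) t) m| ≤ 2 ^ (c * z) := by
  obtain ⟨N, hN⟩ : ∃ N, N = max K 1 * 2 ^ n := ⟨_, rfl⟩
  obtain ⟨a, ha⟩ := exists_nat_ge (2 * (C + 1))
  refine ⟨(1 + a) * (N + 1) ^ n, by
    have : 1 ≤ (N + 1) ^ n := Nat.one_le_pow _ _ (by omega)
    nlinarith, ?_⟩
  intro D w₀ z M i j p P ω ω' hz hi hj hp hP dP hΦ dΦ hpt hcc hnear t ht m hm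
  have hΦe : D.Φ i j ω' = D.Φ i j ω := by
    unfold NDat2.Φ
    rw [hcc]
  rw [hΦe] at hnear
  have e1 : (1 : ℝ) ≤ exp (C * z) := Real.one_le_exp (by positivity)
  have e2 : (1 : ℝ) ≤ exp (1 * z) := Real.one_le_exp (by positivity)
  have hNb : ∀ m ≤ p, (chr P (D.Φ i j ω m - P m)).totalDegree ≤ N := by
    intro m hm
    refine (chr_deg (K := 1) (K' := max K 1) hP (fun k _ => dP k)
      (AdxRow.vars_sub_le (hΦ m) (hP m)) ((totalDegree_sub _ _).trans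
        (max_le_max (dΦ m) (dP m)))).trans ?_
    rw [hN]
    exact Nat.mul_le_mul_left _ (Nat.pow_le_pow_right (by norm_num) (by omega))
  have h1 := nat_near p N e1 e2 hΦ hP hNb hnear (b := pp D (D.ln ω) t)
    (fun m hm => hpt i hi j hj m (by omega) t ht) m hm
  refine h1.trans ?_
  have h2 : 2 * exp (C * z) * exp (1 * z) ≤ 2 ^ ((1 + a) * z) := by
    rw [add_mul, pow_add, mul_assoc, ← Real.exp_add, ← add_mul]
    refine mul_le_mul ?_ (exp_two ha z) (Real.exp_pos _).le (by positivity)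
    rw [one_mul]
    exact le_self_pow₀ (by norm_num) (by omega)
  have h3 : (1 : ℝ) ≤ 2 * exp (C * z) * exp (1 * z) := by nlinarith
  calc (2 * exp (C * z) * exp (1 * z)) ^ ((N + 1) ^ m)
      ≤ (2 * exp (C * z) * exp (1 * z)) ^ ((N + 1) ^ n) :=
        pow_le_pow_right₀ h3 (Nat.pow_le_pow_right (by omega) (by omega))
    _ ≤ (2 ^ ((1 + a) * z)) ^ ((N + 1) ^ n) := pow_le_pow_left₀ (by positivity) h2 _
    _ = 2 ^ ((1 + a) * (N + 1) ^ n * z) := by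
        rw [← pow_mul]
        congr 1
        ring

theorem sum_icc (p : ℕ) (f : ℕ → ℝ) : ∑ m : Fin p, f (m + 1) = ∑ m ∈ Icc 1 p, f m := by
  rw [← Finset.Ico_add_one_right_eq_Icc, Finset.sum_Ico_eq_sum_range, Nat.add_sub_cancel,
    Finset.sum_range fun i => f (1 + i)]
  simp only [add_comm]

/-- **The closed frames of a deeper place**, from the reference samples. -/
theorem frames {D : NDat2} {n K J a₀ w₀ z M M' i j k p : ℕ} {lam gam : ℕ → ℝ} {κ C₁ C : ℝ}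
    {q : D.Ω → ℝ} (hO : D.Ok2 n K J a₀ w₀ z M lam gam κ C₁ q) (hik : i + k < M') (hj : j < M')
    (hM : M' ≤ M) {E : D.Ω → Prop} (hE : ∀ ω, E ω → 0 < q ω ∧ FraC D p 1 M' z C ω) :
    ∃ (P' : D.Γ → ℕ → PN) (x₀ : D.Γ → D.Γ), (∀ x, TriN (P' x)) ∧
      (∀ x m, (P' x m).totalDegree ≤ 1) ∧ ∀ ω, E ω → D.c i j ω = x₀ (D.c (i + k) j ω) ∧
        ∀ m ≤ p, nrm (D.g i j) (1 / 2) (chr (P' (D.c (i + k) j ω))
          (D.Φ i j ω m - P' (D.c (i + k) j ω) m)) ≤ exp (C * z) / 2 ^ D.g i j m ∧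
        nrm (D.g (i + k) j) (1 / 2) (chr (P' (D.c (i + k) j ω))
          (D.Φ (i + k) j ω m - P' (D.c (i + k) j ω) m)) ≤ exp (C * z) / 2 ^ D.g (i + k) j m := by
  classical
  have key : ∀ x : D.Γ, ∃ (P' : ℕ → PN) (x₀ : D.Γ), TriN P' ∧ (∀ m, (P' m).totalDegree ≤ 1) ∧
      ∀ ω, E ω → D.c (i + k) j ω = x → D.c i j ω = x₀ ∧
        ∀ m ≤ p, nrm (D.g i j) (1 / 2) (chr P' (D.Φ i j ω m - P' m)) ≤
          exp (C * z) / 2 ^ D.g i j m ∧
        nrm (D.g (i + k) j) (1 / 2) (chr P' (D.Φ (i + k) j ω m - P' m)) ≤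
          exp (C * z) / 2 ^ D.g (i + k) j m := by
    intro x
    by_cases h : ∃ ω₀, E ω₀ ∧ D.c (i + k) j ω₀ = x
    · obtain ⟨ω₀, h1, h2⟩ := h
      obtain ⟨h3, P', t, d, _, hn⟩ := hE ω₀ h1
      refine ⟨P', D.c i j ω₀, t, d, fun ω hω e => ?_⟩
      have e1 : D.c i j ω = D.c i j ω₀ := c_down hO (hj.le.trans hM) k (by omega) (hE ω hω).1 h3
        (e.trans h2.symm)
      have e2 : D.Φ i j ω = D.Φ i j ω₀ := by
        unfold NDat2.Φ
        rw [e1]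
      have e3 : D.Φ (i + k) j ω = D.Φ (i + k) j ω₀ := by
        unfold NDat2.Φ
        rw [e, h2]
      refine ⟨e1, fun m hm => ?_⟩
      rw [e2, e3]
      exact ⟨hn i (by omega) j hj m hm, hn (i + k) hik j hj m hm⟩
    · refine ⟨fun _ => 0, x, fun i => by simp, fun m => by simp, fun ω hω e => ?_⟩
      exact absurd ⟨ω, hω, e⟩ h
  choose P' x₀ h1 h2 h3 using key
  exact ⟨P', x₀, h1, h2, fun ω hω => h3 _ ω hω rfl⟩

/-- The slope in the letters of the first frame. -/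
theorem vn_chg {D : NDat2} {P P' : ℕ → PN} {g g' : ℕ → ℕ} {x : D.Λ} (hS : D.Strt)
    (hP : TriN P) (dP : ∀ m, (P m).totalDegree ≤ 1) (hP' : TriN P')
    (dP' : ∀ m, (P' m).totalDegree ≤ 1) {m p z w : ℕ} (m1 : 1 ≤ m) (mp : m ≤ p)
    (hw : w = g 0 + z) {B : ℕ → ℝ} (hB : ∀ k, 1 ≤ k → k ≤ p →
      B k = nat g' P' (pp D x (1 / 2 ^ w)) k - nat g' P' (pp D x 0) k) :
    vn D g P x m = 2 ^ g m * coeff (Finsupp.single 0 1) (chr P' (P' m - P m)) / 2 ^ g 0 +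
      ∑ k ∈ Icc 1 p, Wk P P' g m k * (2 ^ g k / 2 ^ g' k) * (2 ^ z * B k) := by
  have hR : (chr P' (P' m - P m)).totalDegree ≤ 1 :=
    chr_aff hP' dP' ((totalDegree_sub _ _).trans (max_le (dP' m) (dP m)))
  have h1 := nat_dif (g := g) (g' := g') hP hP' m1 mp hR (pp D x 1) (pp D x 0)
  have h0 : pp D x 1 0 - pp D x 0 0 = 1 := by
    unfold pp
    rw [if_pos rfl, if_pos rfl]
    ring
  rw [h0, mul_one] at h1
  unfold vn
  rw [h1, add_div, Finset.sum_div]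
  congr 1
  refine Finset.sum_congr rfl fun k hk => ?_
  rw [mem_Icc] at hk
  have e1 := nat_two (x := x) hS hP' dP' g' 1 0 k
  have e2 := nat_two (x := x) hS hP' dP' g' (1 / 2 ^ w) 0 k
  rw [← hB k hk.1 hk.2] at e2
  have e3 : nat g' P' (pp D x 1) k - nat g' P' (pp D x 0) k = 2 ^ w * B k := by
    rw [e1, e2]
    field_simp
    ring
  rw [e3, hw, pow_add]
  field_simp

/-- **No slab, in the letters of a place with a smaller radius.** -/
theorem nslp (hch : ChtAff) (n p K : ℕ) (C₁ C : ℝ) (hn : 1 ≤ n) (hC : 0 ≤ C) : ∃ c t z₀ : ℕ,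
    1 ≤ t ∧
    ∀ (D : NDat2) (J a₀ w₀ z M M' i j k U : ℕ) (lam gam : ℕ → ℝ) (κ Cs ϖ : ℝ) (q : D.Ω → ℝ)
      (P₀ : D.Γ → ℕ → PN) (E : D.Ω → Prop) (m₀ : Fin p) (ka : D.Γ → Fin p → ℝ) (al : D.Γ → ℝ),
      z₀ ≤ z → D.Ok2 n K J a₀ w₀ z M lam gam κ C₁ q → (∀ l, 1 ≤ l → l ≤ n → lam l = 1) →
      D.Strt → D.Slp n J z M q → 0 ≤ ϖ → D.NoSl n J w₀ z M 1 Cs ϖ q → p < n →
      i + k < M' → j < M' → M' ≤ M → i + k + 2 * U ≤ M → j + 2 * U ≤ M →
      Cs * ((t + 1 : ℕ) : ℝ) ≤ U → (∀ x, TriN (P₀ x)) → (∀ x m, (P₀ x m).totalDegree ≤ 1) →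
      (∀ ω, E ω → 0 < q ω ∧ PthC D n w₀ z M 1 ω ∧ FraC D p 1 M' z C ω ∧ ∀ m ≤ p,
        nrm (D.g i j) (1 / 2) (chr (P₀ (D.c i j ω)) (D.Φ i j ω m - P₀ (D.c i j ω) m)) ≤
          exp (C * z) / 2 ^ D.g i j m) →
      (∀ x, ka x m₀ = 1) → (∀ x m, |ka x m| ≤ 1) →
      (∀ ω, E ω → |∑ m : Fin p, ka (D.c (i + k) j ω) m *
        vn D (D.g i j) (P₀ (D.c i j ω)) (D.ln ω) (m + 1) - al (D.c (i + k) j ω)| ≤
          1 / 2 ^ ((k + U + c) * z)) →
      Pb q E ≤ p * ϖ := by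
  classical
  obtain ⟨t, z₁, ht1, hch⟩ := hch n K C₁ C hn hC
  obtain ⟨Cw, Nw, hCw, hsn⟩ := Pool.P4L.sys_near (max K 1) (p + 1)
  obtain ⟨c₁, hc₁⟩ := exists_nat_ge (2 * C₁)
  obtain ⟨a, ha⟩ := exists_nat_ge (2 * C)
  obtain ⟨b, hb⟩ := exists_nat_ge Cw
  -- the bound of the matrix is `2 ^ (cw z)`
  obtain ⟨cw, hcw⟩ : ∃ cw, cw = b + a * Nw := ⟨_, rfl⟩
  refine ⟨c₁ + (p + 1 + cw) * p, t, max z₁ 1, ht1, ?_⟩
  intro D J a₀ w₀ z M M' i j k U lam gam κ Cs ϖ q P₀ E m₀ ka al hz hO hlam hS hSl hϖ hNS hpn hik hj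
    hM hU1 hU2 hUt tP₀ dP₀ hE hka0 hka hsl
  have hz1 : 1 ≤ z := by omega
  have hzr : (0 : ℝ) ≤ z := Nat.cast_nonneg z
  have hp0 : 0 < p := m₀.pos
  obtain ⟨P', x₀, tP', dP', hfr⟩ := frames (C := C) hO hik hj hM
    (fun ω hω => ⟨(hE ω hω).1, (hE ω hω).2.2.1⟩)
  obtain ⟨g, hg⟩ : ∃ g, g = D.g i j := ⟨_, rfl⟩
  obtain ⟨g', hg'⟩ : ∃ g', g' = D.g (i + k) j := ⟨_, rfl⟩
  have hg0 : g 0 = w₀ + j * z := by rw [hg, hO.g_zero]
  -- the chart
  obtain ⟨A, B, hcht, hB⟩ := hch D J a₀ w₀ z M p (i + k) j (j + 1) U lam gam κ q P' E (by omega) hO hS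
    hSl hpn.le (by omega) (by omega) (by omega) (by omega) tP' dP'
    (fun ω hω => ⟨(hE ω hω).1, (hE ω hω).2.1, fun m hm => ((hfr ω hω).2 m hm).2⟩)
  -- the matrix
  obtain ⟨W, hW⟩ : ∃ W : D.Γ → ℕ → ℕ → ℝ, W = fun x => Wk (P₀ (x₀ x)) (P' x) g := ⟨_, rfl⟩
  have hWle : ∀ ω, E ω → ∀ m ∈ Icc 1 p, ∀ l, |W (D.c (i + k) j ω) m l| ≤ 2 ^ (cw * z) := by
    intro ω hω m hm l
    rw [mem_Icc] at hm
    obtain ⟨h1, h2, h3, h4⟩ := hE ω hω
    obtain ⟨h5, h6⟩ := hfr ω hω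
    have e0 : (1 : ℝ) ≤ exp (C * z) := Real.one_le_exp (by positivity)
    have e1 := hsn g (D.Φ i j ω) (P₀ (D.c i j ω)) (P' (D.c (i + k) j ω)) (exp (C * z))
      (hO.P_tri i j _) (tP₀ _) (tP' _) (fun l => (hO.P_deg i j _ l).trans (le_max_left _ _))
      (fun l => (dP₀ _ l).trans (le_max_right _ _)) (fun l => (dP' _ l).trans (le_max_right _ _)) e0
      (fun l hl => by rw [hg]; exact h4 l (by omega))
      (fun l hl => by rw [hg]; exact (h6 l (by omega)).1) m (by omega)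
    have e2 : Cw * exp (C * z) ^ Nw ≤ 2 ^ (cw * z) := by
      rw [hcw, add_mul, pow_add]
      have e3 : Cw ≤ 2 ^ (b * z) := by
        have e4 : b < 2 ^ b := Nat.lt_two_pow_self
        have e5 : (b : ℝ) ≤ 2 ^ b := by exact_mod_cast e4.le
        have e6 : (2 : ℝ) ^ b ≤ 2 ^ (b * z) :=
          pow_le_pow_right₀ (by norm_num) (Nat.le_mul_of_pos_right b hz1)
        linarith
      have e7 : exp (C * z) ^ Nw ≤ 2 ^ (a * Nw * z) := by
        calc exp (C * z) ^ Nw ≤ (2 ^ (a * z)) ^ Nw :=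
              pow_le_pow_left₀ (by positivity) (exp_two ha z) _
          _ = 2 ^ (a * Nw * z) := by
              rw [← pow_mul]
              congr 1
              ring
      exact mul_le_mul e3 e7 (by positivity) (by positivity)
    rw [hW]
    beta_reduce
    rw [← h5]
    exact wk_le (one_le_pow₀ (by norm_num)) (e1.trans (div_le_div_of_nonneg_right e2 (by positivity)))
  -- the covector in the letters of the deeper place
  obtain ⟨kn, hkn⟩ : ∃ kn : D.Γ → ℕ → ℝ, kn = fun x m =>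
    if h : 1 ≤ m ∧ m ≤ p then ka x ⟨m - 1, by omega⟩ else 0 := ⟨_, rfl⟩
  have hkn1 : ∀ x (m : Fin p), kn x (m + 1) = ka x m := by
    intro x m
    rw [hkn]
    beta_reduce
    rw [dif_pos ⟨by omega, by have := m.2; omega⟩]
    congr 1
  obtain ⟨kb, hkb⟩ : ∃ kb : D.Γ → ℕ → ℝ, kb = fun x l =>
    (∑ m ∈ Icc 1 p, kn x m * W x m l) * (2 ^ g l / 2 ^ g' l) * 2 ^ z := ⟨_, rfl⟩
  obtain ⟨r, hr⟩ : ∃ r : D.Γ → ℕ → ℝ, r = fun x m =>
    2 ^ g m * coeff (Finsupp.single 0 1) (chr (P' x) (P' x m - P₀ (x₀ x) m)) / 2 ^ g 0 := ⟨_, rfl⟩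
  obtain ⟨al', hal'⟩ : ∃ al' : D.Γ → ℝ, al' = fun x => al x - ∑ m ∈ Icc 1 p, kn x m * r x m :=
    ⟨_, rfl⟩
  have hid : ∀ ω, E ω → (∑ m : Fin p, ka (D.c (i + k) j ω) m *
      vn D (D.g i j) (P₀ (D.c i j ω)) (D.ln ω) (m + 1)) - al (D.c (i + k) j ω) =
      (∑ l ∈ Icc 1 p, kb (D.c (i + k) j ω) l * B (D.wn J (w₀ + (j + 1) * z) ω) l) -
        al' (D.c (i + k) j ω) := by
    intro ω hω
    obtain ⟨x, hx⟩ : ∃ x, x = D.c (i + k) j ω := ⟨_, rfl⟩
    rw [← hx]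
    have h5 : D.c i j ω = x₀ x := by
      rw [hx]
      exact (hfr ω hω).1
    have e1 : ∑ m : Fin p, ka x m * vn D (D.g i j) (P₀ (D.c i j ω)) (D.ln ω) (m + 1) =
        ∑ m ∈ Icc 1 p, kn x m * vn D g (P₀ (x₀ x)) (D.ln ω) m := by
      rw [← sum_icc, h5, hg]
      refine Finset.sum_congr rfl fun m _ => ?_
      rw [hkn1]
    have e2 : ∀ m ∈ Icc 1 p, vn D g (P₀ (x₀ x)) (D.ln ω) m = r x m +
        ∑ l ∈ Icc 1 p, W x m l * (2 ^ g l / 2 ^ g' l) *
          (2 ^ z * B (D.wn J (w₀ + (j + 1) * z) ω) l) := by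
      intro m hm
      rw [mem_Icc] at hm
      rw [hr, hW]
      refine vn_chg (g := g) (g' := g') hS (tP₀ _) (dP₀ _) (tP' _) (dP' _) hm.1 hm.2
        (w := w₀ + (j + 1) * z) (by rw [hg0]; ring) fun l l1 l2 => ?_
      rw [hB ω hω l l1 l2, hx, hg']
    rw [e1, Finset.sum_congr rfl fun m hm => by rw [e2 m hm]]
    rw [hal', hkb]
    beta_reduce
    have e3 : ∑ l ∈ Icc 1 p, (∑ m ∈ Icc 1 p, kn x m * W x m l) * (2 ^ g l / 2 ^ g' l) * 2 ^ z *
        B (D.wn J (w₀ + (j + 1) * z) ω) l = ∑ m ∈ Icc 1 p, kn x m * ∑ l ∈ Icc 1 p,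
          W x m l * (2 ^ g l / 2 ^ g' l) * (2 ^ z * B (D.wn J (w₀ + (j + 1) * z) ω) l) := by
      simp only [Finset.sum_mul, Finset.mul_sum]
      rw [Finset.sum_comm]
      refine Finset.sum_congr rfl fun m _ => Finset.sum_congr rfl fun l _ => ?_
      ring
    rw [e3]
    simp only [mul_add, Finset.sum_add_distrib]
    ring
  -- the pivot
  have hmax : ∀ x, ∃ l ∈ Icc 1 p, ∀ l' ∈ Icc 1 p, |kb x l'| ≤ |kb x l| := fun x =>
    Finset.exists_max_image _ _ ⟨1, by rw [mem_Icc]; omega⟩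
  choose pv hpv1 hpv2 using hmax
  have hlow : ∀ ω, E ω → 1 ≤ |kb (D.c (i + k) j ω) (pv (D.c (i + k) j ω))| *
      2 ^ ((k + (c₁ + (p + 1 + cw) * p)) * z) := by
    intro ω hω
    obtain ⟨x, hx⟩ : ∃ x, x = D.c (i + k) j ω := ⟨_, rfl⟩
    rw [← hx]
    have hWx := hWle ω hω
    rw [← hx] at hWx
    obtain ⟨ε, hε⟩ : ∃ ε, ε = |kb x (pv x)| * 2 ^ ((k + c₁) * z) := ⟨_, rfl⟩
    have hε0 : 0 ≤ ε := by
      rw [hε]
      positivity
    have h1 : ∀ l ∈ Icc 1 p, |∑ m ∈ Icc 1 p, kn x m * W x m l| ≤ ε := by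
      intro l hl
      have h2 := hpv2 x l hl
      rw [mem_Icc] at hl
      have h3 : |kb x l| = |∑ m ∈ Icc 1 p, kn x m * W x m l| * (2 ^ g l / 2 ^ g' l * 2 ^ z) := by
        rw [hkb]
        beta_reduce
        rw [mul_assoc, abs_mul, abs_of_pos (by positivity : (0 : ℝ) < 2 ^ g l / 2 ^ g' l * 2 ^ z)]
      have h4 := (Pool.TC37F.lev_two hO hlam hc₁ (ia := i) (ib := i + k) (j := j) (by omega) (by omega)
        (by omega) hl.1 (hl.2.trans hpn.le)).2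
      rw [← hg, ← hg', Nat.add_sub_cancel_left] at h4
      have h5 : (2 : ℝ) ^ g' l ≤ 2 ^ g l * 2 ^ ((k + c₁) * z) := by
        rw [← pow_add, add_mul]
        exact pow_le_pow_right₀ (by norm_num) (by omega)
      have h6 : (1 : ℝ) ≤ 2 ^ g l / 2 ^ g' l * 2 ^ z * 2 ^ ((k + c₁) * z) := by
        have h7 : (1 : ℝ) ≤ 2 ^ z := one_le_pow₀ (by norm_num)
        have h8 : (1 : ℝ) ≤ 2 ^ g l / 2 ^ g' l * 2 ^ ((k + c₁) * z) := by
          rw [div_mul_eq_mul_div, le_div_iff₀ (by positivity), one_mul]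
          exact h5
        calc (1 : ℝ) = 1 * 1 := by ring
          _ ≤ (2 ^ g l / 2 ^ g' l * 2 ^ ((k + c₁) * z)) * 2 ^ z :=
              mul_le_mul h8 h7 (by norm_num) (by positivity)
          _ = _ := by ring
      calc |∑ m ∈ Icc 1 p, kn x m * W x m l|
          = |∑ m ∈ Icc 1 p, kn x m * W x m l| * 1 := (mul_one _).symm
        _ ≤ |∑ m ∈ Icc 1 p, kn x m * W x m l| *
            (2 ^ g l / 2 ^ g' l * 2 ^ z * 2 ^ ((k + c₁) * z)) :=
            mul_le_mul_of_nonneg_left h6 (abs_nonneg _)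
        _ = |kb x l| * 2 ^ ((k + c₁) * z) := by rw [h3]; ring
        _ ≤ ε := by
            rw [hε]
            exact mul_le_mul_of_nonneg_right h2 (by positivity)
    have hB1 : (1 : ℝ) ≤ 2 ^ (cw * z) := one_le_pow₀ (by norm_num)
    have hm0 : (m₀ : ℕ) + 1 ∈ Icc 1 p := by
      rw [mem_Icc]
      have := m₀.2
      omega
    have h2 := dual_low p hB1 (fun m => by rw [hW]; exact wk_self m)
      (fun m l hml => by rw [hW]; exact wk_zero hml) hWx hε0 h1 p ((m₀ : ℕ) + 1) hm0 (Nat.sub_le _ _)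
    rw [hkn1, hka0, abs_one] at h2
    have h3 : (1 + (p : ℝ) * 2 ^ (cw * z)) ^ p ≤ 2 ^ ((p + 1 + cw) * p * z) := by
      have h4 : 1 + (p : ℝ) * 2 ^ (cw * z) ≤ 2 ^ ((p + 1 + cw) * z) := by
        have h5 : (p : ℝ) + 1 ≤ 2 ^ (p + 1) := by
          have := (Nat.lt_two_pow_self (n := p + 1)).le
          exact_mod_cast this
        have h6 : (2 : ℝ) ^ (p + 1) ≤ 2 ^ ((p + 1) * z) :=
          pow_le_pow_right₀ (by norm_num) (Nat.le_mul_of_pos_right _ hz1)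
        rw [add_mul, pow_add]
        calc 1 + (p : ℝ) * 2 ^ (cw * z) ≤ ((p : ℝ) + 1) * 2 ^ (cw * z) := by linarith
          _ ≤ _ := mul_le_mul_of_nonneg_right (h5.trans h6) (by positivity)
      calc (1 + (p : ℝ) * 2 ^ (cw * z)) ^ p ≤ (2 ^ ((p + 1 + cw) * z)) ^ p :=
            pow_le_pow_left₀ (by positivity) h4 _
        _ = 2 ^ ((p + 1 + cw) * p * z) := by
            rw [← pow_mul]
            congr 1
            ring
    calc (1 : ℝ) ≤ ε * (1 + (p : ℝ) * 2 ^ (cw * z)) ^ p := h2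
      _ ≤ ε * 2 ^ ((p + 1 + cw) * p * z) := mul_le_mul_of_nonneg_left h3 hε0
      _ = _ := by
          rw [hε, mul_assoc, ← pow_add]
          congr 2
          ring
  -- the pieces
  have hpc : ∀ l ∈ Icc 1 p, Pb q (fun ω => E ω ∧ pv (D.c (i + k) j ω) = l) ≤ ϖ := by
    intro l hl
    by_contra hcon
    push Not at hcon
    rw [mem_Icc] at hl
    obtain ⟨ka', hka'⟩ : ∃ ka' : D.Γ × ℕ → ℕ → ℝ, ka' = fun c l' => if l' = l then 1 else
      if pv c.1 = l then kb c.1 l' / kb c.1 l else 0 := ⟨_, rfl⟩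
    refine hNS (i + k) j (j + 1) t U p (by omega) (by omega) (by omega) (by omega) ht1 (by omega) hpn
      (by rw [Nat.add_sub_cancel_left]; exact hUt) l hl.1 hl.2 (fun c => P' c.1) A B ka'
      (fun c => al' c.1 / kb c.1 l) (fun c => by rw [hka']; exact if_pos rfl) ?_
      (fun ω => E ω ∧ pv (D.c (i + k) j ω) = l) hcon.le (hcht.sub fun ω hω => hω.1) ?_
    · intro c l' l1 l2
      rw [hka']
      beta_reduce
      split_ifs with h1 h2
      · rw [abs_one]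
      · rw [abs_div]
        refine div_le_one_of_le₀ ?_ (abs_nonneg _)
        have := hpv2 c.1 l' (by rw [mem_Icc]; omega)
        rw [h2] at this
        exact this
      · rw [abs_zero]
        exact zero_le_one
    · intro ω _ hω
      obtain ⟨hω1, hω2⟩ := hω
      have h1 := hlow ω hω1
      rw [hω2] at h1
      have hkl : 0 < |kb (D.c (i + k) j ω) l| := by
        by_contra h2
        push Not at h2
        have h3 : |kb (D.c (i + k) j ω) l| = 0 := le_antisymm h2 (abs_nonneg _)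
        rw [h3, zero_mul] at h1
        linarith
      have hkl0 : kb (D.c (i + k) j ω) l ≠ 0 := abs_pos.1 hkl
      have h2 := hsl ω hω1
      rw [hid ω hω1] at h2
      have h3 : ∀ l' ∈ Icc 1 p, ka' (D.cT J (w₀ + (j + 1) * z) (i + k) j ω) l' =
          kb (D.c (i + k) j ω) l' / kb (D.c (i + k) j ω) l := by
        intro l' _
        rw [hka']
        unfold NDat2.cT
        beta_reduce
        split_ifs with h4
        · rw [h4, div_self hkl0]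
        · rfl
      rw [Finset.sum_congr rfl fun l' hl' => by rw [h3 l' hl']]
      have h4 : (∑ l' ∈ Icc 1 p, kb (D.c (i + k) j ω) l' / kb (D.c (i + k) j ω) l *
          B (D.wn J (w₀ + (j + 1) * z) ω) l') - al' (D.c (i + k) j ω) / kb (D.c (i + k) j ω) l =
          ((∑ l' ∈ Icc 1 p, kb (D.c (i + k) j ω) l' * B (D.wn J (w₀ + (j + 1) * z) ω) l') -
            al' (D.c (i + k) j ω)) / kb (D.c (i + k) j ω) l := by
        rw [sub_div, Finset.sum_div]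
        congr 1
        refine Finset.sum_congr rfl fun l' _ => ?_
        ring
      have h5 : (D.cT J (w₀ + (j + 1) * z) (i + k) j ω).1 = D.c (i + k) j ω := rfl
      rw [h5, h4, abs_div, div_le_iff₀ hkl]
      refine h2.trans ?_
      have h6 : ((k + U + (c₁ + (p + 1 + cw) * p)) * z) =
          U * z + (k + (c₁ + (p + 1 + cw) * p)) * z := by ring
      rw [h6, pow_add, div_le_iff₀ (by positivity)]
      calc (1 : ℝ) ≤ |kb (D.c (i + k) j ω) l| * 2 ^ ((k + (c₁ + (p + 1 + cw) * p)) * z) := h1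
        _ = 1 / 2 ^ (U * z) * |kb (D.c (i + k) j ω) l| *
            (2 ^ (U * z) * 2 ^ ((k + (c₁ + (p + 1 + cw) * p)) * z)) := by
            field_simp
  calc Pb q E ≤ ∑ l ∈ Icc 1 p, Pb q (fun ω => E ω ∧ pv (D.c (i + k) j ω) = l) :=
        pb_sum hO.isLaw.nonneg _ fun ω _ hω => ⟨_, hpv1 _, hω, rfl⟩
    _ ≤ ∑ _l ∈ Icc 1 p, ϖ := Finset.sum_le_sum hpc
    _ = p * ϖ := by rw [Finset.sum_const, nsmul_eq_mul, Nat.card_Icc, Nat.add_sub_cancel]

end Pool.AF37
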